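import Pool.Agent.V203PL.Axis
import Pool.Agent.H535R3.KI

set_option autoImplicit false
open Set Filter Topology MeasureTheory

namespace V203PG

lemma int_lb {f : ℝ → ℝ} {x y c : ℝ} (hxy : x ≤ y) (hf : ContinuousOn f (Icc x y))
    (h : ∀ t ∈ Icc x y, c ≤ f t) : c * (y - x) ≤ ∫ t in x..y, f t := by
  have h1 : ∫ t in x..y, c ≤ ∫ t in x..y, f t := by
    refine intervalIntegral.integral_mono_on hxy intervalIntegrable_const ?_ h
    exact ContinuousOn.intervalIntegrable (by rwa [uIcc_of_le hxy])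
  rw [intervalIntegral.integral_const, smul_eq_mul] at h1
  linarith

lemma int_abs {f : ℝ → ℝ} {x y c : ℝ} (hxy : x ≤ y)
    (h : ∀ t ∈ Icc x y, |f t| ≤ c) : |∫ t in x..y, f t| ≤ c * (y - x) := by
  have h1 := intervalIntegral.norm_integral_le_of_norm_le_const (a := x) (b := y) (f := f) (C := c)
    (fun t ht => by
      rw [uIoc_of_le hxy] at ht
      exact h t ⟨ht.1.le, ht.2⟩)
  rw [abs_of_nonneg (by linarith : 0 ≤ y - x)] at h1
  exact h1

/-- Integration by parts against a phase with monotone derivative. -/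
lemma by_parts {ψ ψ' ψ'' g g' : ℝ → ℝ} {x y m G G' : ℝ} (hxy : x ≤ y)
    (hψ : ∀ t, HasDerivAt ψ (ψ' t) t)
    (hψ' : ∀ t, HasDerivAt ψ' (ψ'' t) t) (hc : Continuous ψ'') (hg : ∀ t, HasDerivAt g (g' t) t)
    (hgc : Continuous g') (hm : 0 < m) (hlow : ∀ t ∈ Icc x y, m ≤ |ψ' t|)
    (hneg : ∀ t ∈ Icc x y, ψ'' t ≤ 0) (hG : ∀ t ∈ Icc x y, |g t| ≤ G)
    (hG' : ∀ t ∈ Icc x y, |g' t| ≤ G') :
    |∫ t in x..y, Real.cos (ψ t) * g t| ≤ (4 * G + G' * (y - x)) / m := by
  have hne : ∀ t ∈ Icc x y, ψ' t ≠ 0 := fun t ht h0 => by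
    have := hlow t ht
    rw [h0, abs_zero] at this
    linarith
  have cψ : Continuous ψ := continuous_iff_continuousAt.2 fun t => (hψ t).continuousAt
  have cψ' : Continuous ψ' := continuous_iff_continuousAt.2 fun t => (hψ' t).continuousAt
  have cg : Continuous g := continuous_iff_continuousAt.2 fun t => (hg t).continuousAt
  have hu : uIcc x y = Icc x y := uIcc_of_le hxy
  have hG0 : 0 ≤ G := (abs_nonneg _).trans (hG x ⟨le_rfl, hxy⟩)
  have i1 : IntervalIntegrable (fun t => Real.cos (ψ t) * g t) volume x y :=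
    Continuous.intervalIntegrable (by fun_prop) _ _
  have i2 : IntervalIntegrable (fun t => Real.sin (ψ t) * g' t / ψ' t) volume x y := by
    apply ContinuousOn.intervalIntegrable
    rw [hu]
    exact ContinuousOn.div (by fun_prop) cψ'.continuousOn hne
  have i3 : IntervalIntegrable (fun t => Real.sin (ψ t) * g t * ψ'' t / (ψ' t) ^ 2) volume x y := by
    apply ContinuousOn.intervalIntegrable
    rw [hu]
    exact ContinuousOn.div (by fun_prop) (by fun_prop) (fun t ht => pow_ne_zero 2 (hne t ht))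
  have i4 : IntervalIntegrable (fun t => -ψ'' t / (ψ' t) ^ 2) volume x y := by
    apply ContinuousOn.intervalIntegrable
    rw [hu]
    exact ContinuousOn.div (by fun_prop) (by fun_prop) (fun t ht => pow_ne_zero 2 (hne t ht))
  have h1 : ∫ t in x..y, ((Real.cos (ψ t) * g t + Real.sin (ψ t) * g' t / ψ' t) -
      Real.sin (ψ t) * g t * ψ'' t / (ψ' t) ^ 2) =
      Real.sin (ψ y) * g y / ψ' y - Real.sin (ψ x) * g x / ψ' x := by
    refine intervalIntegral.integral_eq_sub_of_hasDerivAt
      (f := fun t => Real.sin (ψ t) * g t / ψ' t) ?_ ((i1.add i2).sub i3)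
    intro t ht
    rw [hu] at ht
    have h2 := (((hψ t).sin.mul (hg t))).div (hψ' t) (hne t ht)
    refine h2.congr_deriv ?_
    have h3 := hne t ht
    simp only [Pi.mul_apply]
    field_simp
  have h2 : ∫ t in x..y, -ψ'' t / (ψ' t) ^ 2 = 1 / ψ' y - 1 / ψ' x := by
    refine intervalIntegral.integral_eq_sub_of_hasDerivAt
      (f := fun t => 1 / ψ' t) ?_ i4
    intro t ht
    rw [hu] at ht
    have h3 := (hψ' t).inv (hne t ht)
    simp only [one_div]
    exact h3
  rw [intervalIntegral.integral_sub (i1.add i2) i3, intervalIntegral.integral_add i1 i2] at h1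
  have b2 : |∫ t in x..y, Real.sin (ψ t) * g' t / ψ' t| ≤ G' / m * (y - x) := by
    refine int_abs hxy fun t ht => ?_
    rw [abs_div, abs_mul]
    refine div_le_div₀ ((abs_nonneg _).trans (hG' t ht)) ?_ hm (hlow t ht)
    calc |Real.sin (ψ t)| * |g' t| ≤ 1 * |g' t| :=
          mul_le_mul_of_nonneg_right (Real.abs_sin_le_one _) (abs_nonneg _)
      _ ≤ G' := by rw [one_mul]; exact hG' t ht
  have b3 : |∫ t in x..y, Real.sin (ψ t) * g t * ψ'' t / (ψ' t) ^ 2| ≤ G * (2 / m) := by
    have h4 : |∫ t in x..y, Real.sin (ψ t) * g t * ψ'' t / (ψ' t) ^ 2| ≤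
        ∫ t in x..y, G * (-ψ'' t / (ψ' t) ^ 2) := by
      rw [← Real.norm_eq_abs]
      refine intervalIntegral.norm_integral_le_of_norm_le hxy ?_ (i4.const_mul G)
      refine Eventually.of_forall fun t ht => ?_
      have ht' : t ∈ Icc x y := ⟨ht.1.le, ht.2⟩
      rw [Real.norm_eq_abs, abs_div, abs_of_nonneg (sq_nonneg (ψ' t)), abs_mul, abs_mul,
        abs_of_nonpos (hneg t ht'), ← mul_div_assoc]
      refine div_le_div_of_nonneg_right ?_ (sq_nonneg _)
      refine mul_le_mul_of_nonneg_right ?_ (by linarith [hneg t ht'])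
      calc |Real.sin (ψ t)| * |g t| ≤ 1 * |g t| :=
          mul_le_mul_of_nonneg_right (Real.abs_sin_le_one _) (abs_nonneg _)
        _ ≤ G := by rw [one_mul]; exact hG t ht'
    rw [intervalIntegral.integral_const_mul, h2] at h4
    refine h4.trans (mul_le_mul_of_nonneg_left ?_ hG0)
    have h5 : ∀ t ∈ Icc x y, |1 / ψ' t| ≤ 1 / m := fun t ht => by
      rw [abs_div, abs_one]
      exact one_div_le_one_div_of_le hm (hlow t ht)
    have h6 := h5 x ⟨le_rfl, hxy⟩
    have h7 := h5 y ⟨hxy, le_rfl⟩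
    have h8 : 1 / ψ' y - 1 / ψ' x ≤ 1 / m + 1 / m := by
      have := (abs_le.1 h6).1
      have := (abs_le.1 h7).2
      linarith
    calc _ ≤ _ := h8
      _ = 2 / m := by ring
  have b1 : ∀ t ∈ Icc x y, |Real.sin (ψ t) * g t / ψ' t| ≤ G / m := by
    intro t ht
    rw [abs_div, abs_mul]
    refine div_le_div₀ hG0 ?_ hm (hlow t ht)
    calc |Real.sin (ψ t)| * |g t| ≤ 1 * |g t| :=
          mul_le_mul_of_nonneg_right (Real.abs_sin_le_one _) (abs_nonneg _)
      _ ≤ G := by rw [one_mul]; exact hG t ht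
  have c1 := b1 x ⟨le_rfl, hxy⟩
  have c2 := b1 y ⟨hxy, le_rfl⟩
  have e1 : (4 * G + G' * (y - x)) / m = G / m + G / m + G' / m * (y - x) + G * (2 / m) := by
    field_simp
    ring
  rw [e1]
  have e2 : ∫ t in x..y, Real.cos (ψ t) * g t = Real.sin (ψ y) * g y / ψ' y -
      Real.sin (ψ x) * g x / ψ' x - (∫ t in x..y, Real.sin (ψ t) * g' t / ψ' t) +
      ∫ t in x..y, Real.sin (ψ t) * g t * ψ'' t / (ψ' t) ^ 2 := by linarith
  rw [e2, abs_le]
  have := abs_le.1 c1
  have := abs_le.1 c2
  have := abs_le.1 b2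
  have := abs_le.1 b3
  constructor <;> linarith

/-- The oscillating integral with the phase `c + r t + a sin t` on `[0, T] ⊆ [0, π]`. -/
lemma osc {a r c η G G' T : ℝ} {g g' : ℝ → ℝ} (ha : 0 < a) (hη : 0 < η) (hη1 : η ≤ 1)
    (hr : 4 * |r| ≤ a * η) (hT : T ∈ Icc 0 Real.pi) (hg : ∀ t, HasDerivAt g (g' t) t)
    (hgc : Continuous g') (hG : ∀ t ∈ Icc 0 Real.pi, |g t| ≤ G)
    (hG' : ∀ t ∈ Icc 0 Real.pi, |g' t| ≤ G') :
    |∫ t in (0:ℝ)..T, Real.cos (c + r * t + a * Real.sin t) * g t| ≤
      2 * η * G + 8 * (4 * G + Real.pi * G') / (a * η) := by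
  have hpi := Real.pi_pos
  have hpi3 := Real.pi_gt_three
  have hG0 : 0 ≤ G := (abs_nonneg _).trans (hG 0 ⟨le_rfl, hpi.le⟩)
  have hG'0 : 0 ≤ G' := (abs_nonneg _).trans (hG' 0 ⟨le_rfl, hpi.le⟩)
  have cg : Continuous g := continuous_iff_continuousAt.2 fun t => (hg t).continuousAt
  set m := a * η / 4 with hm
  have hm0 : 0 < m := by positivity
  have hψ : ∀ t, HasDerivAt (fun t => c + r * t + a * Real.sin t) (r + a * Real.cos t) t := by
    intro t
    have h1 := (((hasDerivAt_id t).const_mul r).const_add c).add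
      ((Real.hasDerivAt_sin t).const_mul a)
    refine h1.congr_deriv ?_
    ring
  have hψ' : ∀ t, HasDerivAt (fun t => r + a * Real.cos t) (-(a * Real.sin t)) t := by
    intro t
    have h1 := ((Real.hasDerivAt_cos t).const_mul a).const_add r
    refine h1.congr_deriv ?_
    ring
  have hlow : ∀ t ∈ Icc 0 Real.pi, η ≤ |t - Real.pi / 2| → m ≤ |r + a * Real.cos t| := by
    intro t ht h
    have h1 : η / 2 ≤ |Real.cos t| := by
      have h2 : |Real.cos t| = Real.sin |t - Real.pi / 2| := by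
        rcases le_total 0 (t - Real.pi / 2) with h3 | h3
        · rw [abs_of_nonneg h3, Real.sin_sub_pi_div_two]
          rw [abs_of_nonpos]
          exact Real.cos_nonpos_of_pi_div_two_le_of_le (by linarith) (by linarith [ht.2])
        · rw [abs_of_nonpos h3, neg_sub, Real.sin_pi_div_two_sub]
          exact abs_of_nonneg (Real.cos_nonneg_of_mem_Icc ⟨by linarith [ht.1], by linarith⟩)
      have h4 : |t - Real.pi / 2| ≤ Real.pi / 2 := by
        rw [abs_le]
        constructor <;> linarith [ht.1, ht.2]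
      have h5 := Real.mul_le_sin (abs_nonneg (t - Real.pi / 2)) h4
      rw [h2]
      have h6 : η / 2 ≤ 2 / Real.pi * |t - Real.pi / 2| := by
        have h7 : (1:ℝ) / 2 ≤ 2 / Real.pi := by
          rw [div_le_div_iff₀ (by norm_num) hpi]
          linarith [Real.pi_le_four]
        calc η / 2 = 1 / 2 * η := by ring
          _ ≤ 2 / Real.pi * |t - Real.pi / 2| := mul_le_mul h7 h hη.le (by positivity)
      exact h6.trans h5
    have h2 : a * η / 2 ≤ |a * Real.cos t| := by
      rw [abs_mul, abs_of_pos ha]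
      nlinarith
    have h3 : |a * Real.cos t| ≤ |r + a * Real.cos t| + |r| := by
      have := abs_sub (r + a * Real.cos t) r
      rwa [add_sub_cancel_left] at this
    rw [hm]
    linarith
  have hbp : ∀ x y, 0 ≤ x → x ≤ y → y ≤ Real.pi → (∀ t ∈ Icc x y, η ≤ |t - Real.pi / 2|) →
      |∫ t in x..y, Real.cos (c + r * t + a * Real.sin t) * g t| ≤ (4 * G + Real.pi * G') / m := by
    intro x y hx hxy hy hh
    have hsub : ∀ t ∈ Icc x y, t ∈ Icc 0 Real.pi := fun t ht => ⟨hx.trans ht.1, ht.2.trans hy⟩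
    have h1 := by_parts hxy hψ hψ' (by fun_prop) hg hgc hm0
      (fun t ht => hlow t (hsub t ht) (hh t ht))
      (fun t ht => by
        have := Real.sin_nonneg_of_nonneg_of_le_pi (hsub t ht).1 (hsub t ht).2
        nlinarith)
      (fun t ht => hG t (hsub t ht)) (fun t ht => hG' t (hsub t ht))
    refine h1.trans ?_
    refine div_le_div_of_nonneg_right ?_ hm0.le
    nlinarith
  have hin : ∀ x y, 0 ≤ x → x ≤ y → y ≤ Real.pi → y - x ≤ 2 * η →
      |∫ t in x..y, Real.cos (c + r * t + a * Real.sin t) * g t| ≤ 2 * η * G := by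
    intro x y hx hxy hy h
    have h1 : |∫ t in x..y, Real.cos (c + r * t + a * Real.sin t) * g t| ≤ G * (y - x) := by
      refine int_abs hxy fun t ht => ?_
      rw [abs_mul]
      calc |Real.cos (c + r * t + a * Real.sin t)| * |g t| ≤ 1 * |g t| :=
          mul_le_mul_of_nonneg_right (Real.abs_cos_le_one _) (abs_nonneg _)
        _ ≤ G := by rw [one_mul]; exact hG t ⟨hx.trans ht.1, ht.2.trans hy⟩
    refine h1.trans ?_
    nlinarith
  have hint : ∀ x y, IntervalIntegrable (fun t => Real.cos (c + r * t + a * Real.sin t) * g t)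
      volume x y := fun x y => Continuous.intervalIntegrable (by fun_prop) _ _
  have e1 : 8 * (4 * G + Real.pi * G') / (a * η) = 2 * ((4 * G + Real.pi * G') / m) := by
    rw [hm]; field_simp; ring
  rw [e1]
  have hQ : 0 ≤ (4 * G + Real.pi * G') / m := by positivity
  have hR : 0 ≤ 2 * η * G := by positivity
  rcases le_total T (Real.pi / 2 - η) with h1 | h1
  · have := hbp 0 T le_rfl hT.1 hT.2 (fun t ht => by
      rw [abs_of_nonpos (by linarith [ht.2])]; linarith [ht.2])
    linarith
  · have hp2 : 0 ≤ Real.pi / 2 - η := by linarith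
    have h2 := hbp 0 (Real.pi / 2 - η) le_rfl hp2 (by linarith) (fun t ht => by
      rw [abs_of_nonpos (by linarith [ht.2])]; linarith [ht.2])
    rcases le_total T (Real.pi / 2 + η) with h3 | h3
    · have h4 := hin (Real.pi / 2 - η) T hp2 h1 hT.2 (by linarith)
      rw [← intervalIntegral.integral_add_adjacent_intervals (hint 0 (Real.pi / 2 - η))
        (hint (Real.pi / 2 - η) T)]
      refine (abs_add_le _ _).trans ?_
      linarith
    · have h4 := hin (Real.pi / 2 - η) (Real.pi / 2 + η) hp2 (by linarith) (by linarith)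
        (by linarith)
      have h5 := hbp (Real.pi / 2 + η) T (by linarith) h3 hT.2 (fun t ht => by
        rw [abs_of_nonneg (by linarith [ht.1])]; linarith [ht.1])
      rw [← intervalIntegral.integral_add_adjacent_intervals (hint 0 (Real.pi / 2 - η))
        (hint (Real.pi / 2 - η) T),
        ← intervalIntegral.integral_add_adjacent_intervals (hint (Real.pi / 2 - η)
          (Real.pi / 2 + η)) (hint (Real.pi / 2 + η) T)]
      refine (abs_add_le _ _).trans ?_
      have h6 := abs_add_le (∫ t in (Real.pi / 2 - η)..(Real.pi / 2 + η),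
        Real.cos (c + r * t + a * Real.sin t) * g t)
        (∫ t in (Real.pi / 2 + η)..T, Real.cos (c + r * t + a * Real.sin t) * g t)
      linarith

end V203PG
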