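import Pool.Agent.V203PG.A1

set_option autoImplicit false
open Set Filter Topology MeasureTheory

namespace V203PG

/-- Lower bound for the main term. -/
lemma main_lb (r : ℝ) : ∃ c C q0 : ℝ, 0 < c ∧ 0 ≤ C ∧ 1 ≤ q0 ∧ ∀ q : ℝ, q0 ≤ q →
    c / q ^ 2 - C / q ^ 4 ≤
      ∫ s in (0:ℝ)..(Real.pi / 2), Real.cos (r * s) * Real.sin (q ^ 4 * (1 - Real.cos s)) := by
  have hpi := Real.pi_pos
  have hpi3 := Real.pi_gt_three
  have hpi4 := Real.pi_le_four
  set κ : ℝ → ℝ := fun s => r * Real.sin (r * s) * Real.sin s + Real.cos (r * s) * Real.cos s with hκ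
  have hκc : Continuous κ := by fun_prop
  have hκ0 : κ 0 = 1 := by simp [hκ]
  obtain ⟨s0, hs0, hs01, hs0κ⟩ : ∃ s0 : ℝ, 0 < s0 ∧ s0 ≤ 1 ∧ ∀ s ∈ Icc 0 s0, 1 / 2 ≤ κ s := by
    have h1 : ∀ᶠ s in 𝓝 (0:ℝ), 1 / 2 < κ s :=
      hκc.continuousAt.eventually (lt_mem_nhds (by rw [hκ0]; norm_num))
    obtain ⟨d, hd, hd2⟩ := Metric.eventually_nhds_iff.1 h1
    refine ⟨min (d / 2) 1, by positivity, min_le_right _ _, fun s hs => (hd2 ?_).le⟩
    rw [Real.dist_eq, sub_zero, abs_of_nonneg hs.1]
    have := hs.2.trans (min_le_left _ _)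
    linarith
  have hsin0 : 0 < Real.sin s0 := Real.sin_pos_of_pos_of_lt_pi hs0 (by linarith)
  set D := 2 * (|r| + 1) / Real.sin s0 ^ 2 with hD
  have hD0 : 0 ≤ D := by positivity
  set c0 : ℝ := 2 / Real.pi ^ 2 * (2 / Real.pi ^ 2) ^ 2 with hc0
  have hc00 : 0 < c0 := by positivity
  refine ⟨c0 / 8, 4 + D * 2, 2 / s0 + 2, by positivity, by positivity, ?_, ?_⟩
  · have : 0 ≤ 2 / s0 := by positivity
    linarith
  intro q hq
  have hq2 : 2 / s0 ≤ q := by linarith
  have hq1 : 2 ≤ q := by have : 0 ≤ 2 / s0 := by positivity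
                         linarith
  have hq0 : 0 < q := by linarith
  have hqq : q ≤ q ^ 2 := by nlinarith
  set a := q ^ 4 with ha
  have ha0 : 0 < a := by positivity
  have hqa : q ^ 2 ≤ a := by rw [ha]; nlinarith
  have ha1 : 4 ≤ a := by nlinarith
  set w : ℝ → ℝ := fun s => a * (1 - Real.cos s) with hw
  set s1 := 1 / a with hs1
  have hs10 : 0 < s1 := by positivity
  set x1 := 1 / q ^ 2 with hx1
  set x2 := 2 / q ^ 2 with hx2
  have hsx : s1 ≤ x1 := one_div_le_one_div_of_le (by positivity) hqa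
  have hx1p : 0 < x1 := by positivity
  have hxx : x1 ≤ x2 := by
    rw [hx1, hx2]
    exact div_le_div_of_nonneg_right (by norm_num) (by positivity)
  have hx2s : x2 ≤ s0 := by
    rw [hx2, div_le_iff₀ (by positivity)]
    rw [div_le_iff₀ hs0] at hq2
    nlinarith
  have hs0p : s0 ≤ Real.pi / 2 := by linarith
  have hax1 : a * x1 ^ 2 = 1 := by rw [ha, hx1]; field_simp
  have hax2 : a * x2 ^ 2 = 4 := by rw [ha, hx2]; field_simp; norm_num
  -- first piece
  have p1 : -1 * (s1 - 0) ≤ ∫ s in (0:ℝ)..s1, Real.cos (r * s) * Real.sin (w s) := by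
    refine int_lb hs10.le (by fun_prop) fun t _ => ?_
    have h1 : |Real.cos (r * t) * Real.sin (w t)| ≤ 1 := by
      rw [abs_mul]
      exact mul_le_one₀ (Real.abs_cos_le_one _) (abs_nonneg _) (Real.abs_sin_le_one _)
    exact (abs_le.1 h1).1
  -- by parts
  have hsp : ∀ s ∈ Icc s1 (Real.pi / 2), 0 < Real.sin s := fun s hs =>
    Real.sin_pos_of_pos_of_lt_pi (by linarith [hs.1]) (by linarith [hs.2])
  set h : ℝ → ℝ := fun s => (1 - Real.cos (w s)) * κ s / (a * Real.sin s ^ 2) with hh
  have hhc : ContinuousOn h (Icc s1 (Real.pi / 2)) := by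
    refine ContinuousOn.div (by fun_prop) (by fun_prop) fun t ht => ?_
    have := hsp t ht
    positivity
  have hle : s1 ≤ Real.pi / 2 := hsx.trans (hxx.trans (hx2s.trans hs0p))
  have p2 : ∫ s in s1..(Real.pi / 2), (Real.cos (r * s) * Real.sin (w s) - h s) =
      (1 - Real.cos (w (Real.pi / 2))) * Real.cos (r * (Real.pi / 2)) / (a * Real.sin (Real.pi / 2)) -
      (1 - Real.cos (w s1)) * Real.cos (r * s1) / (a * Real.sin s1) := by
    refine intervalIntegral.integral_eq_sub_of_hasDerivAt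
      (f := fun s => (1 - Real.cos (w s)) * Real.cos (r * s) / (a * Real.sin s)) ?_ ?_
    · intro t ht
      rw [uIcc_of_le hle] at ht
      have hst := hsp t ht
      have hne : a * Real.sin t ≠ 0 := by positivity
      have d1 : HasDerivAt w (a * Real.sin t) t := by
        have := ((Real.hasDerivAt_cos t).const_sub 1).const_mul a
        refine this.congr_deriv ?_
        ring
      have d2 : HasDerivAt (fun s => Real.cos (r * s)) (-Real.sin (r * t) * r) t := by
        have := ((hasDerivAt_id t).const_mul r).cos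
        refine this.congr_deriv ?_
        simp
      have d3 := ((d1.cos.const_sub 1).mul d2).div ((Real.hasDerivAt_sin t).const_mul a) hne
      refine d3.congr_deriv ?_
      simp only [Pi.mul_apply, hh, hκ]
      field_simp
      ring
    · refine (Continuous.intervalIntegrable (by fun_prop) _ _).sub ?_
      exact ContinuousOn.intervalIntegrable (by rwa [uIcc_of_le hle])
  have ih : IntervalIntegrable h volume s1 (Real.pi / 2) :=
    ContinuousOn.intervalIntegrable (by rwa [uIcc_of_le hle])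
  have ic : ∀ x y, IntervalIntegrable (fun s => Real.cos (r * s) * Real.sin (w s)) volume x y :=
    fun x y => Continuous.intervalIntegrable (by fun_prop) _ _
  rw [intervalIntegral.integral_sub (ic _ _) ih] at p2
  -- boundary terms
  have q1 : -(2 / a) ≤ (1 - Real.cos (w (Real.pi / 2))) * Real.cos (r * (Real.pi / 2)) /
      (a * Real.sin (Real.pi / 2)) := by
    rw [Real.sin_pi_div_two, mul_one, ← neg_div]
    refine div_le_div_of_nonneg_right ?_ ha0.le
    have h1 : |(1 - Real.cos (w (Real.pi / 2))) * Real.cos (r * (Real.pi / 2))| ≤ 2 * 1 := by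
      rw [abs_mul]
      refine mul_le_mul ?_ (Real.abs_cos_le_one _) (abs_nonneg _) (by norm_num)
      rw [abs_of_nonneg (by linarith [Real.cos_le_one (w (Real.pi / 2))])]
      linarith [Real.neg_one_le_cos (w (Real.pi / 2))]
    linarith [(abs_le.1 h1).1]
  have q2 : (1 - Real.cos (w s1)) * Real.cos (r * s1) / (a * Real.sin s1) ≤ 1 / a := by
    have hs1l : s1 ≤ Real.pi / 2 := hle
    have h1 : 1 / 2 ≤ a * Real.sin s1 := by
      have h2 := Real.mul_le_sin hs10.le hs1l
      have h3 : a * (2 / Real.pi * s1) = 2 / Real.pi := by rw [hs1]; field_simp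
      have h4 : (1:ℝ) / 2 ≤ 2 / Real.pi := by
        rw [div_le_div_iff₀ (by norm_num) hpi]; linarith
      nlinarith
    have h2 : 0 ≤ w s1 := by
      have := Real.cos_le_one s1
      simp only [hw]
      nlinarith
    have h3 : w s1 ≤ 1 / (2 * a) := by
      have h4 := Real.one_sub_sq_div_two_le_cos (x := s1)
      have h5 : a * (s1 ^ 2 / 2) = 1 / (2 * a) := by rw [hs1]; field_simp
      simp only [hw]
      rw [← h5]
      nlinarith
    have h4 := Real.one_sub_sq_div_two_le_cos (x := w s1)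
    have h5 : (1 - Real.cos (w s1)) ≤ 1 / (2 * a) := by
      have h6 : w s1 ≤ 1 := h3.trans (by
        rw [div_le_iff₀ (by positivity)]; linarith)
      nlinarith
    have h6 : 0 ≤ 1 - Real.cos (w s1) := by linarith [Real.cos_le_one (w s1)]
    rw [div_le_iff₀ (by linarith)]
    have h7 : (1 - Real.cos (w s1)) * Real.cos (r * s1) ≤ 1 - Real.cos (w s1) := by
      have := Real.cos_le_one (r * s1)
      nlinarith
    have h8 : 1 / (2 * a) ≤ 1 / a * (a * Real.sin s1) := by
      have : 1 / (2 * a) = 1 / a * (1 / 2) := by field_simp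
      rw [this]
      exact mul_le_mul_of_nonneg_left h1 (by positivity)
    linarith
  -- lower bound for the integral of h
  have hcos1 : ∀ s, 0 ≤ 1 - Real.cos (w s) := fun s => by linarith [Real.cos_le_one (w s)]
  have hsub : ∀ x y, s1 ≤ x → y ≤ Real.pi / 2 → ContinuousOn h (Icc x y) := fun x y hx hy =>
    hhc.mono (Icc_subset_Icc hx hy)
  have r1 : 0 * (x1 - s1) ≤ ∫ s in s1..x1, h s := by
    refine int_lb hsx (hsub _ _ le_rfl (by linarith)) fun t ht => ?_
    have h1 := hs0κ t ⟨by linarith [ht.1], by linarith [ht.2]⟩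
    have h2 := hcos1 t
    exact div_nonneg (mul_nonneg h2 (by linarith)) (by positivity)
  have r2 : c0 / 8 * (x2 - x1) ≤ ∫ s in x1..x2, h s := by
    refine int_lb hxx (hsub _ _ hsx (by linarith)) fun t ht => ?_
    have ht0 : 0 < t := by linarith [ht.1]
    have h1 := hs0κ t ⟨by linarith [ht.1], by linarith [ht.2]⟩
    have htp : t ≤ Real.pi := by linarith [ht.2]
    have h3 : 2 / Real.pi ^ 2 * t ^ 2 ≤ 1 - Real.cos t := by
      have := Real.cos_le_one_sub_mul_cos_sq (x := t) (by rw [abs_of_pos ht0]; exact htp)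
      linarith
    have h4 : 2 / Real.pi ^ 2 ≤ w t := by
      have h5 : x1 ^ 2 ≤ t ^ 2 := pow_le_pow_left₀ hx1p.le ht.1 2
      have h6 : 1 ≤ a * t ^ 2 := by nlinarith
      simp only [hw]
      calc 2 / Real.pi ^ 2 = 2 / Real.pi ^ 2 * 1 := by ring
        _ ≤ 2 / Real.pi ^ 2 * (a * t ^ 2) := mul_le_mul_of_nonneg_left h6 (by positivity)
        _ = a * (2 / Real.pi ^ 2 * t ^ 2) := by ring
        _ ≤ a * (1 - Real.cos t) := mul_le_mul_of_nonneg_left h3 ha0.le
    have h5 : w t ≤ 2 := by
      have h6 := Real.one_sub_sq_div_two_le_cos (x := t)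
      have h7 : t ^ 2 ≤ x2 ^ 2 := pow_le_pow_left₀ ht0.le ht.2 2
      simp only [hw]
      nlinarith
    have h6 : 0 < w t := lt_of_lt_of_le (by positivity) h4
    have h7 : c0 ≤ 1 - Real.cos (w t) := by
      have h8 := Real.cos_le_one_sub_mul_cos_sq (x := w t) (by
        rw [abs_of_pos h6]; linarith)
      have h9 : (2 / Real.pi ^ 2) ^ 2 ≤ w t ^ 2 := pow_le_pow_left₀ (by positivity) h4 2
      have h10 : c0 ≤ 2 / Real.pi ^ 2 * w t ^ 2 := mul_le_mul_of_nonneg_left h9 (by positivity)
      linarith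
    have h8 : a * Real.sin t ^ 2 ≤ 4 := by
      have h9 := Real.sin_le ht0.le
      have h10 : 0 ≤ Real.sin t := Real.sin_nonneg_of_nonneg_of_le_pi ht0.le htp
      have h11 : Real.sin t ^ 2 ≤ x2 ^ 2 := pow_le_pow_left₀ h10 (h9.trans ht.2) 2
      nlinarith
    have h9 : 0 < a * Real.sin t ^ 2 := by
      have := hsp t ⟨by linarith [ht.1], by linarith [ht.2]⟩
      positivity
    rw [hh]
    simp only
    rw [le_div_iff₀ h9]
    have h10 : c0 * (1 / 2) ≤ (1 - Real.cos (w t)) * κ t :=
      mul_le_mul h7 h1 (by norm_num) (hcos1 t)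
    nlinarith
  have r3 : 0 * (s0 - x2) ≤ ∫ s in x2..s0, h s := by
    refine int_lb hx2s (hsub _ _ (by linarith) hs0p) fun t ht => ?_
    have h1 := hs0κ t ⟨by linarith [ht.1], by linarith [ht.2]⟩
    have h2 := hcos1 t
    exact div_nonneg (mul_nonneg h2 (by linarith)) (by positivity)
  have r4 : -(D / a) * (Real.pi / 2 - s0) ≤ ∫ s in s0..(Real.pi / 2), h s := by
    refine int_lb hs0p (hsub _ _ (by linarith) le_rfl) fun t ht => ?_
    have h1 : |h t| ≤ D / a := by
      have h2 : |κ t| ≤ |r| + 1 := by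
        simp only [hκ]
        refine (abs_add_le _ _).trans ?_
        rw [abs_mul, abs_mul, abs_mul]
        have a1 := Real.abs_sin_le_one (r * t)
        have a2 := Real.abs_sin_le_one t
        have a3 := Real.abs_cos_le_one (r * t)
        have a4 := Real.abs_cos_le_one t
        have b1 : |r| * |Real.sin (r * t)| * |Real.sin t| ≤ |r| * 1 * 1 := by gcongr
        have b2 : |Real.cos (r * t)| * |Real.cos t| ≤ 1 * 1 := by gcongr
        linarith
      have h3 : |1 - Real.cos (w t)| ≤ 2 := by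
        rw [abs_of_nonneg (hcos1 t)]
        linarith [Real.neg_one_le_cos (w t)]
      have h4 : Real.sin s0 ≤ Real.sin t :=
        Real.sin_le_sin_of_le_of_le_pi_div_two (by linarith) ht.2 ht.1
      have h5 : Real.sin s0 ^ 2 ≤ Real.sin t ^ 2 := pow_le_pow_left₀ hsin0.le h4 2
      simp only [hh]
      rw [abs_div, abs_mul, abs_of_nonneg (by positivity : 0 ≤ a * Real.sin t ^ 2), hD, div_div]
      refine div_le_div₀ (by positivity) ?_ (by positivity) ?_
      · exact mul_le_mul h3 h2 (abs_nonneg _) (by norm_num)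
      · rw [mul_comm]
        exact mul_le_mul_of_nonneg_left h5 ha0.le
    exact (abs_le.1 h1).1
  have i1 : IntervalIntegrable h volume s1 x1 :=
    ContinuousOn.intervalIntegrable (by rw [uIcc_of_le hsx]; exact hsub _ _ le_rfl (by linarith))
  have i2 : IntervalIntegrable h volume x1 x2 :=
    ContinuousOn.intervalIntegrable (by rw [uIcc_of_le hxx]; exact hsub _ _ hsx (by linarith))
  have i3 : IntervalIntegrable h volume x2 s0 :=
    ContinuousOn.intervalIntegrable (by rw [uIcc_of_le hx2s]; exact hsub _ _ (by linarith) hs0p)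
  have i4 : IntervalIntegrable h volume s0 (Real.pi / 2) :=
    ContinuousOn.intervalIntegrable (by rw [uIcc_of_le hs0p]; exact hsub _ _ (by linarith) le_rfl)
  have e1 : ∫ s in s1..(Real.pi / 2), h s = (∫ s in s1..x1, h s) + (∫ s in x1..x2, h s) +
      (∫ s in x2..s0, h s) + ∫ s in s0..(Real.pi / 2), h s := by
    rw [intervalIntegral.integral_add_adjacent_intervals i1 i2,
      intervalIntegral.integral_add_adjacent_intervals (i1.trans i2) i3,
      intervalIntegral.integral_add_adjacent_intervals ((i1.trans i2).trans i3) i4]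
  have e2 : ∫ s in (0:ℝ)..(Real.pi / 2), Real.cos (r * s) * Real.sin (w s) =
      (∫ s in (0:ℝ)..s1, Real.cos (r * s) * Real.sin (w s)) +
      ∫ s in s1..(Real.pi / 2), Real.cos (r * s) * Real.sin (w s) :=
    (intervalIntegral.integral_add_adjacent_intervals (ic _ _) (ic _ _)).symm
  have e3 : D / a * (Real.pi / 2 - s0) ≤ D * 2 / a := by
    have h1 : Real.pi / 2 - s0 ≤ 2 := by linarith
    have h2 : 0 ≤ D / a := by positivity
    calc D / a * (Real.pi / 2 - s0) ≤ D / a * 2 := mul_le_mul_of_nonneg_left h1 h2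
      _ = D * 2 / a := by ring
  have e4 : x2 - x1 = 1 / q ^ 2 := by rw [hx1, hx2]; ring
  rw [e4] at r2
  have e5 : (4 + D * 2) / a = 1 / a + 2 / a + 1 / a + D * 2 / a := by ring
  have e6 : c0 / 8 / q ^ 2 = c0 / 8 * (1 / q ^ 2) := by ring
  change _ ≤ ∫ s in (0:ℝ)..(Real.pi / 2), Real.cos (r * s) * Real.sin (w s)
  rw [e2, e5, e6]
  have e7 : s1 = 1 / a := rfl
  linarith

end V203PG
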