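import Pool.Agent.V203PG.A2

set_option autoImplicit false
open Set Filter Topology MeasureTheory H535R3

namespace V203PG

/-- The slow part of the symmetric solution. -/
noncomputable def dl (r a ε : ℝ) (t : ℝ) : ℝ :=
  fl r a ε (Real.pi / 2) t - Real.pi / 2 - r * t - a * Real.sin t

lemma dl_zero (r a ε : ℝ) : dl r a ε 0 = 0 := by simp [dl, fl_zero]

lemma dl_deriv (r a ε t : ℝ) :
    HasDerivAt (dl r a ε) (-ε * Real.sin (fl r a ε (Real.pi / 2) t)) t := by
  have h := (((fl_sol r a ε (Real.pi / 2) t).sub_const (Real.pi / 2)).sub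
    ((hasDerivAt_id t).const_mul r)).sub ((Real.hasDerivAt_sin t).const_mul a)
  refine h.congr_deriv ?_
  ring

lemma dl_cont (r a ε : ℝ) : Continuous (dl r a ε) :=
  continuous_iff_continuousAt.2 fun t => (dl_deriv r a ε t).continuousAt

lemma sin_fl (r a ε t : ℝ) : Real.sin (fl r a ε (Real.pi / 2) t) =
    Real.cos (0 + r * t + a * Real.sin t) * Real.cos (dl r a ε t) -
    Real.cos (-(Real.pi / 2) + r * t + a * Real.sin t) * Real.sin (dl r a ε t) := by
  have h1 : fl r a ε (Real.pi / 2) t = (0 + r * t + a * Real.sin t) + dl r a ε t + Real.pi / 2 := by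
    simp only [dl]; ring
  have h2 : Real.cos (-(Real.pi / 2) + r * t + a * Real.sin t) =
      Real.sin (0 + r * t + a * Real.sin t) := by
    rw [show -(Real.pi / 2) + r * t + a * Real.sin t =
      (0 + r * t + a * Real.sin t) - Real.pi / 2 by ring, Real.cos_sub_pi_div_two]
  rw [h1, Real.sin_add_pi_div_two, Real.cos_add, h2]

lemma dl_eq (r a ε T : ℝ) : dl r a ε T =
    -ε * ((∫ t in (0:ℝ)..T, Real.cos (0 + r * t + a * Real.sin t) * Real.cos (dl r a ε t)) -
      ∫ t in (0:ℝ)..T, Real.cos (-(Real.pi / 2) + r * t + a * Real.sin t) *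
        Real.sin (dl r a ε t)) := by
  have hc := dl_cont r a ε
  have hfc : Continuous (fl r a ε (Real.pi / 2)) := (fl_sol r a ε (Real.pi / 2)).cont
  have h1 : ∫ t in (0:ℝ)..T, -ε * Real.sin (fl r a ε (Real.pi / 2) t) =
      dl r a ε T - dl r a ε 0 :=
    intervalIntegral.integral_eq_sub_of_hasDerivAt (fun t _ => dl_deriv r a ε t)
      (Continuous.intervalIntegrable (by fun_prop) _ _)
  rw [dl_zero, sub_zero, intervalIntegral.integral_const_mul] at h1
  rw [← h1]
  congr 1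
  simp_rw [sin_fl]
  exact intervalIntegral.integral_sub (Continuous.intervalIntegrable (by fun_prop) _ _)
    (Continuous.intervalIntegrable (by fun_prop) _ _)

lemma dl_deriv_abs {r a ε : ℝ} (hε : 0 < ε) (t : ℝ) :
    |-ε * Real.sin (fl r a ε (Real.pi / 2) t)| ≤ ε := by
  rw [abs_mul, abs_neg, abs_of_pos hε]
  exact mul_le_of_le_one_right hε.le (Real.abs_sin_le_one _)

/-- first bound -/
lemma dl_bound (r : ℝ) {ε : ℝ} (hε : 0 < ε) : ∃ K q0 : ℝ, 0 < K ∧ 1 ≤ q0 ∧ ∀ q : ℝ, q0 ≤ q →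
    4 * |r| ≤ q ^ 2 ∧ ∀ T ∈ Icc 0 Real.pi, |dl r (q ^ 4) ε T| ≤ K / q ^ 2 := by
  have hpi := Real.pi_pos
  refine ⟨ε * (2 * (2 + 8 * (4 + Real.pi * ε))), 1 + 4 * |r|, by positivity, ?_, ?_⟩
  · have := abs_nonneg r
    linarith
  intro q hq
  have hr0 := abs_nonneg r
  have hq1 : 1 ≤ q := by linarith
  have hq0 : 0 < q := by linarith
  have hqq : q ≤ q ^ 2 := by nlinarith
  refine ⟨by linarith, fun T hT => ?_⟩
  set a := q ^ 4 with ha
  have ha0 : 0 < a := by positivity
  have haη : a * (1 / q ^ 2) = q ^ 2 := by rw [ha]; field_simp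
  have hc := dl_cont r a ε
  have hfc : Continuous (fl r a ε (Real.pi / 2)) := (fl_sol r a ε (Real.pi / 2)).cont
  have h1 := osc (a := a) (r := r) (c := 0) (η := 1 / q ^ 2) (G := 1) (G' := ε) (T := T)
    (g := fun t => Real.cos (dl r a ε t))
    (g' := fun t => -Real.sin (dl r a ε t) * (-ε * Real.sin (fl r a ε (Real.pi / 2) t)))
    ha0 (by positivity) (by rw [div_le_iff₀ (by positivity)]; linarith) (by rw [haη]; linarith) hT
    (fun t => (dl_deriv r a ε t).cos) (by fun_prop) (fun t _ => Real.abs_cos_le_one _)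
    (fun t _ => by
      rw [abs_mul, abs_neg]
      have := dl_deriv_abs (r := r) (a := a) hε t
      calc _ ≤ 1 * ε := mul_le_mul (Real.abs_sin_le_one _) this (abs_nonneg _) zero_le_one
        _ = ε := one_mul _)
  have h2 := osc (a := a) (r := r) (c := -(Real.pi / 2)) (η := 1 / q ^ 2) (G := 1) (G' := ε) (T := T)
    (g := fun t => Real.sin (dl r a ε t))
    (g' := fun t => Real.cos (dl r a ε t) * (-ε * Real.sin (fl r a ε (Real.pi / 2) t)))
    ha0 (by positivity) (by rw [div_le_iff₀ (by positivity)]; linarith) (by rw [haη]; linarith) hT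
    (fun t => (dl_deriv r a ε t).sin) (by fun_prop) (fun t _ => Real.abs_sin_le_one _)
    (fun t _ => by
      rw [abs_mul]
      have := dl_deriv_abs (r := r) (a := a) hε t
      calc _ ≤ 1 * ε := mul_le_mul (Real.abs_cos_le_one _) this (abs_nonneg _) zero_le_one
        _ = ε := one_mul _)
  rw [haη] at h1 h2
  rw [dl_eq, abs_mul, abs_neg, abs_of_pos hε, mul_div_assoc]
  refine mul_le_mul_of_nonneg_left ?_ hε.le
  refine (abs_sub _ _).trans ?_
  have e1 : 2 * (2 + 8 * (4 + Real.pi * ε)) / q ^ 2 =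
      (2 * (1 / q ^ 2) * 1 + 8 * (4 * 1 + Real.pi * ε) / q ^ 2) +
      (2 * (1 / q ^ 2) * 1 + 8 * (4 * 1 + Real.pi * ε) / q ^ 2) := by ring
  rw [e1]
  exact add_le_add h1 h2

/-- second bound -/
lemma F_bound (r : ℝ) {ε : ℝ} (hε : 0 < ε) : ∃ K q0 : ℝ, 0 < K ∧ 1 ≤ q0 ∧ ∀ q : ℝ, q0 ≤ q →
    |dl r (q ^ 4) ε Real.pi +
      ε * ∫ t in (0:ℝ)..Real.pi, Real.cos (0 + r * t + q ^ 4 * Real.sin t)| ≤ K / q ^ 3 := by
  have hpi := Real.pi_pos
  obtain ⟨K, q0, hK, hq01, hKq⟩ := dl_bound r hε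
  refine ⟨ε * (Real.pi * K ^ 2 + (2 * K + 8 * (4 * K + Real.pi * ε))), q0, by positivity, hq01, ?_⟩
  intro q hq
  obtain ⟨hr, hb⟩ := hKq q hq
  have hq1 : 1 ≤ q := by linarith
  have hq0 : 0 < q := by linarith
  have hqq : q ≤ q ^ 2 := by nlinarith
  set a := q ^ 4 with ha
  have ha0 : 0 < a := by positivity
  have haη : a * (1 / q) = q ^ 3 := by rw [ha]; field_simp
  have hq23 : q ^ 2 ≤ q ^ 3 := pow_le_pow_right₀ hq1 (by norm_num)
  have hc := dl_cont r a ε
  have hfc : Continuous (fl r a ε (Real.pi / 2)) := (fl_sol r a ε (Real.pi / 2)).cont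
  have h2 := osc (a := a) (r := r) (c := -(Real.pi / 2)) (η := 1 / q) (G := K / q ^ 2) (G' := ε)
    (T := Real.pi)
    (g := fun t => Real.sin (dl r a ε t))
    (g' := fun t => Real.cos (dl r a ε t) * (-ε * Real.sin (fl r a ε (Real.pi / 2) t)))
    ha0 (by positivity) (by rw [div_le_iff₀ (by positivity)]; linarith) (by rw [haη]; linarith)
    ⟨hpi.le, le_rfl⟩
    (fun t => (dl_deriv r a ε t).sin) (by fun_prop) (fun t ht => by
      exact (Real.abs_sin_le_abs).trans (hb t ht))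
    (fun t _ => by
      rw [abs_mul]
      have := dl_deriv_abs (r := r) (a := a) hε t
      calc _ ≤ 1 * ε := mul_le_mul (Real.abs_cos_le_one _) this (abs_nonneg _) zero_le_one
        _ = ε := one_mul _)
  rw [haη] at h2
  have h1 : |∫ t in (0:ℝ)..Real.pi, Real.cos (0 + r * t + a * Real.sin t) *
      (Real.cos (dl r a ε t) - 1)| ≤ (K / q ^ 2) ^ 2 * (Real.pi - 0) := by
    refine int_abs hpi.le fun t ht => ?_
    rw [abs_mul]
    have h3 : |Real.cos (dl r a ε t) - 1| ≤ (K / q ^ 2) ^ 2 := by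
      have h4 := Real.one_sub_sq_div_two_le_cos (x := dl r a ε t)
      have h5 := Real.cos_le_one (dl r a ε t)
      have h6 : dl r a ε t ^ 2 ≤ (K / q ^ 2) ^ 2 := by
        rw [← sq_abs]
        exact pow_le_pow_left₀ (abs_nonneg _) (hb t ht) 2
      rw [abs_of_nonpos (by linarith)]
      nlinarith [sq_nonneg (dl r a ε t)]
    calc _ ≤ 1 * (K / q ^ 2) ^ 2 := mul_le_mul (Real.abs_cos_le_one _) h3 (abs_nonneg _) zero_le_one
      _ = _ := one_mul _
  have e0 : ∫ t in (0:ℝ)..Real.pi, Real.cos (0 + r * t + a * Real.sin t) * Real.cos (dl r a ε t) =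
      (∫ t in (0:ℝ)..Real.pi, Real.cos (0 + r * t + a * Real.sin t) *
      (Real.cos (dl r a ε t) - 1)) + ∫ t in (0:ℝ)..Real.pi, Real.cos (0 + r * t + a * Real.sin t) := by
    rw [← intervalIntegral.integral_add (Continuous.intervalIntegrable (by fun_prop) _ _)
      (Continuous.intervalIntegrable (by fun_prop) _ _)]
    congr 1
    funext t
    ring
  have e1 := dl_eq r a ε Real.pi
  rw [e0] at e1
  have e2 : dl r a ε Real.pi + ε * ∫ t in (0:ℝ)..Real.pi, Real.cos (0 + r * t + a * Real.sin t) =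
      ε * (-(∫ t in (0:ℝ)..Real.pi, Real.cos (0 + r * t + a * Real.sin t) *
      (Real.cos (dl r a ε t) - 1)) + ∫ t in (0:ℝ)..Real.pi,
        Real.cos (-(Real.pi / 2) + r * t + a * Real.sin t) * Real.sin (dl r a ε t)) := by
    rw [e1]; ring
  rw [e2, abs_mul, abs_of_pos hε, mul_div_assoc]
  refine mul_le_mul_of_nonneg_left ?_ hε.le
  refine (abs_add_le _ _).trans ?_
  rw [abs_neg, add_div]
  have g1 : (K / q ^ 2) ^ 2 * (Real.pi - 0) ≤ Real.pi * K ^ 2 / q ^ 3 := by
    have : (K / q ^ 2) ^ 2 * (Real.pi - 0) = Real.pi * K ^ 2 / q ^ 4 := by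
      rw [div_pow]; ring
    rw [this]
    exact div_le_div_of_nonneg_left (by positivity) (by positivity)
      (pow_le_pow_right₀ hq1 (by norm_num))
  have g2 : 2 * (1 / q) * (K / q ^ 2) + 8 * (4 * (K / q ^ 2) + Real.pi * ε) / q ^ 3 ≤
      (2 * K + 8 * (4 * K + Real.pi * ε)) / q ^ 3 := by
    have g3 : K / q ^ 2 ≤ K := by
      rw [div_le_iff₀ (by positivity)]
      nlinarith
    have g4 : 2 * (1 / q) * (K / q ^ 2) = 2 * K / q ^ 3 := by field_simp
    rw [g4, add_div (2 * K)]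
    gcongr
  exact add_le_add (h1.trans g1) (h2.trans g2)

lemma I_eq {r a σ : ℝ} {k : ℤ} (hσ : σ = 1 ∨ σ = -1)
    (h : r * (Real.pi / 2) + a = σ * (Real.pi / 2) + k * (2 * Real.pi)) :
    ∫ t in (0:ℝ)..Real.pi, Real.cos (0 + r * t + a * Real.sin t) =
      2 * σ * ∫ s in (0:ℝ)..(Real.pi / 2), Real.cos (r * s) * Real.sin (a * (1 - Real.cos s)) := by
  set g : ℝ → ℝ := fun s => Real.cos (0 + r * (s + Real.pi / 2) + a * Real.sin (s + Real.pi / 2))
    with hg
  have hgc : Continuous g := by fun_prop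
  have h1 : ∫ t in (0:ℝ)..Real.pi, Real.cos (0 + r * t + a * Real.sin t) =
      ∫ s in (-(Real.pi / 2))..(Real.pi / 2), g s := by
    have := intervalIntegral.integral_comp_add_right (a := -(Real.pi / 2)) (b := Real.pi / 2)
      (fun t => Real.cos (0 + r * t + a * Real.sin t)) (Real.pi / 2)
    rw [show -(Real.pi / 2) + Real.pi / 2 = 0 by ring,
      show Real.pi / 2 + Real.pi / 2 = Real.pi by ring] at this
    exact this.symm
  have h2 : ∫ s in (-(Real.pi / 2))..0, g s = ∫ s in (0:ℝ)..(Real.pi / 2), g (-s) := by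
    rw [intervalIntegral.integral_comp_neg, neg_zero]
  have hi : ∀ x y, IntervalIntegrable g volume x y := fun x y => hgc.intervalIntegrable _ _
  rw [h1, ← intervalIntegral.integral_add_adjacent_intervals (hi (-(Real.pi / 2)) 0) (hi 0 _), h2,
    ← intervalIntegral.integral_add (Continuous.intervalIntegrable (by fun_prop) _ _) (hi _ _),
    ← intervalIntegral.integral_const_mul]
  congr 1
  funext s
  have key : ∀ s, g s = -σ * Real.sin (r * s - a * (1 - Real.cos s)) := by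
    intro s
    simp only [hg]
    rw [Real.sin_add_pi_div_two]
    have e1 : 0 + r * (s + Real.pi / 2) + a * Real.cos s =
        (r * s - a * (1 - Real.cos s)) + σ * (Real.pi / 2) + k * (2 * Real.pi) := by
      linear_combination h
    rw [e1, Real.cos_add_int_mul_two_pi]
    rcases hσ with rfl | rfl
    · rw [one_mul, Real.cos_add_pi_div_two]; ring
    · rw [show r * s - a * (1 - Real.cos s) + -1 * (Real.pi / 2) =
        r * s - a * (1 - Real.cos s) - Real.pi / 2 by ring, Real.cos_sub_pi_div_two]; ring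
  rw [key, key, Real.cos_neg, show r * -s - a * (1 - Real.cos s) =
    -(r * s + a * (1 - Real.cos s)) by ring, Real.sin_neg, Real.sin_add, Real.sin_sub]
  ring

/-- For large resonant `a` the sign is known. -/
lemma sign_large (r : ℝ) {ε : ℝ} (hε : 0 < ε) : ∃ A : ℝ, ∀ a : ℝ, A ≤ a → ∀ (σ : ℝ) (k : ℤ),
    (σ = 1 ∨ σ = -1) → r * (Real.pi / 2) + a = σ * (Real.pi / 2) + k * (2 * Real.pi) →
    σ * dl r a ε Real.pi < 0 := by
  obtain ⟨c, C, q1, hc, hC, hq1, hW⟩ := main_lb r
  obtain ⟨K, q2, hK, hq2, hF⟩ := F_bound r hε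
  set Q := q1 + q2 + (2 * ε * C + K) / (2 * ε * c) + 1 with hQ
  have hx0 : 0 ≤ (2 * ε * C + K) / (2 * ε * c) := by positivity
  have hQ1 : 1 ≤ Q := by linarith
  refine ⟨Q ^ 4, fun a ha σ k hσ hk => ?_⟩
  have ha0 : 0 < a := lt_of_lt_of_le (by positivity) ha
  obtain ⟨q, hq0, hqa⟩ : ∃ q : ℝ, 0 ≤ q ∧ q ^ 4 = a :=
    ⟨Real.sqrt (Real.sqrt a), Real.sqrt_nonneg _, by
      rw [show (4:ℕ) = 2 * 2 by norm_num, pow_mul, Real.sq_sqrt (Real.sqrt_nonneg _),
        Real.sq_sqrt ha0.le]⟩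
  subst hqa
  have hqQ : Q ≤ q := by
    by_contra hcon
    push Not at hcon
    have := pow_lt_pow_left₀ hcon hq0 (n := 4) (by norm_num)
    linarith
  have hW' := hW q (by linarith)
  have hF' := hF q (by linarith)
  rw [I_eq hσ hk] at hF'
  set W := ∫ s in (0:ℝ)..(Real.pi / 2), Real.cos (r * s) * Real.sin (q ^ 4 * (1 - Real.cos s))
  have hqp : 0 < q := by linarith
  have hq11 : 1 ≤ q := by linarith
  have key : K / q ^ 3 < 2 * ε * W := by
    have h1 : 2 * ε * (c / q ^ 2 - C / q ^ 4) ≤ 2 * ε * W :=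
      mul_le_mul_of_nonneg_left hW' (by positivity)
    refine lt_of_lt_of_le ?_ h1
    have h2 : C / q ^ 4 ≤ C / q ^ 3 :=
      div_le_div_of_nonneg_left hC (by positivity) (pow_le_pow_right₀ hq11 (by norm_num))
    have h3 : (2 * ε * C + K) / q ^ 3 < 2 * ε * (c / q ^ 2) := by
      have h4 : (2 * ε * C + K) / (2 * ε * c) < q := by linarith
      rw [div_lt_iff₀ (by positivity)] at h4
      rw [div_lt_iff₀ (by positivity)]
      have h5 : 2 * ε * (c / q ^ 2) * q ^ 3 = q * (2 * ε * c) := by field_simp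
      rw [h5]; exact h4
    have h6 : (2 * ε * C + K) / q ^ 3 = 2 * ε * (C / q ^ 3) + K / q ^ 3 := by ring
    have h7 : 2 * ε * (C / q ^ 4) ≤ 2 * ε * (C / q ^ 3) :=
      mul_le_mul_of_nonneg_left h2 (by positivity)
    linarith
  have h8 := abs_le.1 hF'
  rcases hσ with rfl | rfl
  · have : dl r (q ^ 4) ε Real.pi + ε * (2 * 1 * W) ≤ K / q ^ 3 := h8.2
    linarith
  · have : -(K / q ^ 3) ≤ dl r (q ^ 4) ε Real.pi + ε * (2 * -1 * W) := h8.1
    linarith

end V203PG
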