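import Pool.Agent.V203PG.A3

set_option autoImplicit false
open Set Filter Topology MeasureTheory H535R3

namespace V203PG

/-- The period map is the identity at height `a` on the axis. -/
def Idn (r : ℤ) (ε a : ℝ) : Prop := ∀ x, P r a ε x = x + 2 * Real.pi * r

lemma Idn.single {r : ℤ} {ε a : ℝ} (h : Idn r ε a) :
    ((r : ℝ), a) ∈ Ls r ε ∧ ∀ b', (b', a) ∈ Ls r ε → b' = r := by
  have h1 := slice_of_rot h
  refine ⟨⟨0, h 0⟩, fun b' hb' => ?_⟩
  have h2 : (b', a) ∈ {q : ℝ × ℝ | q ∈ Ls r ε ∧ q.2 = a} := ⟨hb', rfl⟩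
  rw [h1, mem_singleton_iff, Prod.mk.injEq] at h2
  exact h2.1

lemma Idn.neg {r : ℤ} {ε a : ℝ} (h : Idn r ε a) : Idn (-r) ε a := by
  obtain ⟨h1, h2⟩ := h.single
  have h3 := Ls_neg h1
  have h4 := single_neg h2
  intro x
  have h5 := single_ident h3 h4 x
  push_cast at h5 ⊢
  exact h5

lemma Idn_neg_iff {r : ℤ} {ε a : ℝ} : Idn (-r) ε a ↔ Idn r ε a := by
  constructor
  · intro h
    have := h.neg
    rwa [neg_neg] at this
  · exact Idn.neg

lemma Idn.ge {r : ℤ} {ε a : ℝ} (hε : 0 < ε) (ha : 0 < a) (h : Idn r ε a) : ε ≤ a := by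
  obtain ⟨h1, h2⟩ := h.single
  exact (main_int r hε ha h1 h2 le_rfl h1).1

lemma isClosed_Idn (r : ℤ) (ε : ℝ) : IsClosed {a | Idn r ε a} := by
  have h1 : {a | Idn r ε a} = ⋂ x : ℝ, {a | P r a ε x = x + 2 * Real.pi * r} := by
    ext a
    simp only [mem_iInter, mem_ofPred_eq]
    rfl
  rw [h1]
  refine isClosed_iInter fun x => isClosed_eq ?_ continuous_const
  exact continuous_P.comp (f := fun a : ℝ => ((r : ℝ), a, ε, x)) (by fun_prop)

lemma fl_cont_a (b ε x : ℝ) {t : ℝ} (ht : t ∈ Icc 0 (2 * Real.pi)) :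
    Continuous fun a => fl b a ε x t := by
  rw [continuous_iff_continuousAt]
  intro a
  rw [ContinuousAt, tendsto_iff_dist_tendsto_zero]
  have hK : ((KK ε : NNReal) : ℝ) = |ε| + 1 := rfl
  have hb : Tendsto (fun a' : ℝ => |a' - a| / (|ε| + 1) * (Real.exp ((|ε| + 1) * t) - 1))
      (𝓝 a) (𝓝 0) := by
    have hc : Continuous fun a' : ℝ => |a' - a| / (|ε| + 1) * (Real.exp ((|ε| + 1) * t) - 1) := by
      fun_prop
    have := hc.tendsto a
    simpa using this
  refine squeeze_zero (fun _ => dist_nonneg) (fun a' => ?_) hb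
  rw [dist_comm]
  have h := fl_dist b a ε x b a' ε x t ht
  rw [gronwallBound_of_K_ne_0 (by rw [hK]; positivity), hK, sub_zero] at h
  simp only [dist_self, zero_mul, zero_add, sub_self, abs_zero, add_zero] at h
  exact h

/-- Half-period criterion. -/
lemma half_crit {r : ℤ} {a ε : ℝ} (h : dl r a ε Real.pi = 0) :
    P r a ε (Real.pi / 2) = Real.pi / 2 + 2 * Real.pi * r := by
  have h1 : fl r a ε (Real.pi / 2) Real.pi = Real.pi / 2 + r * Real.pi := by
    simp only [dl, Real.sin_pi] at h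
    linarith
  have h2 : fl r a ε (Real.pi / 2) (-Real.pi) = Real.pi / 2 - r * Real.pi := by
    rw [sym_sol, h1]; ring
  have h3 := ((fl_sol r a ε (Real.pi / 2)).shift).add_two_pi (-r)
  have h4 := (fl_sol r a ε (Real.pi / 2)).unique h3 (t0 := -Real.pi) (by
    rw [show -Real.pi + 2 * Real.pi = Real.pi by ring, h1, h2]
    push_cast; ring)
  have h5 := congrFun h4 0
  simp only [zero_add, fl_zero] at h5
  rw [P]
  push_cast at h5
  linarith

lemma idn_of_sym_zero {a ε : ℝ} (h : P 0 a ε (Real.pi / 2) = Real.pi / 2) :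
    ∀ x, P 0 a ε x = x := by
  have hm : P 0 a ε (Real.pi / 2) = Real.pi / 2 + 2 * Real.pi * ((0 : ℤ) : ℝ) := by
    rw [h]; push_cast; ring
  set φ := fl 0 a ε (Real.pi / 2) with hφd
  have hφ : Sol 0 a ε φ := fl_sol _ _ _ _
  have hper : ∀ t, φ (t + 2 * Real.pi) = φ t := by
    intro t
    have := fl_per hm t
    push_cast at this
    rw [hφd, this]; ring
  have h1 : φ Real.pi = Real.pi / 2 := by
    have h2 : φ (-Real.pi) = Real.pi - φ Real.pi := sym_sol Real.pi
    have h3 := hper (-Real.pi)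
    rw [show -Real.pi + 2 * Real.pi = Real.pi by ring] at h3
    linarith
  have hψ : Sol 0 a ε (fun t => -(φ (t + Real.pi))) := by
    intro t
    have h1 := ((hφ (t + Real.pi)).comp_add_const t Real.pi).neg
    refine h1.congr_deriv ?_
    simp only [Real.sin_neg, Real.cos_add_pi]; ring
  have h2 := congrFun hψ.eq_fl (2 * Real.pi)
  simp only [zero_add] at h2
  have h3 : P 0 a ε (-(Real.pi / 2)) = -(Real.pi / 2) + 2 * Real.pi * ((0 : ℤ) : ℝ) := by
    rw [P]
    rw [h1] at h2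
    rw [← h2, add_comm, hper, h1]
    push_cast; ring
  have h4 : Real.sin ((-(Real.pi / 2) - Real.pi / 2) / 2) ≠ 0 := by
    rw [show (-(Real.pi / 2) - Real.pi / 2) / 2 = -(Real.pi / 2) by ring, Real.sin_neg,
      Real.sin_pi_div_two]
    norm_num
  rcases dich hm h3 h4 with ⟨h5, -⟩ | ⟨h5, -⟩
  · intro x
    have := h5 x
    push_cast at this
    linarith
  · exact absurd (Kx_sym hm) h5

lemma idn_of_sym_pos {n : ℕ} {a ε : ℝ} (hε : 0 < ε) (ha : 2 * MM n (ε / 2) < a)
    (h : P (n + 1) a ε (Real.pi / 2) = Real.pi / 2 + 2 * Real.pi * ((n + 1 : ℤ) : ℝ)) :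
    ∀ x, P (n + 1) a ε x = x + 2 * Real.pi * ((n + 1 : ℤ) : ℝ) := by
  by_contra hne
  have h1 : Simple n ε a := frontier_of_parabolic h (Kx_sym h) hne
  have hM : 0 < MM n (ε / 2) := MM_pos n (by positivity)
  have := simple_unique hε (by linarith) (by linarith) h1 (simple_MM n hε)
  linarith

/-- There are identity points arbitrarily high. -/
lemma unbounded_nat (n : ℕ) {ε : ℝ} (hε : 0 < ε) (M : ℝ) : ∃ a, M < a ∧ Idn n ε a := by
  obtain ⟨A, hA⟩ := sign_large (n : ℝ) hε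
  have hpi := Real.pi_pos
  set M' := max (max A M) (2 * MM (n - 1) (ε / 2)) + 1 with hM'
  obtain ⟨k, hk⟩ := exists_nat_ge (M' + n * (Real.pi / 2) + Real.pi)
  have hk1 : M' < (k : ℝ) * (2 * Real.pi) - Real.pi / 2 - n * (Real.pi / 2) := by
    have h1 : (k : ℝ) ≤ k * (2 * Real.pi) := by
      have h2 : (0:ℝ) ≤ k := k.cast_nonneg
      nlinarith [Real.pi_gt_three]
    linarith
  set a2 := (k : ℝ) * (2 * Real.pi) - Real.pi / 2 - n * (Real.pi / 2) with ha2
  set a1 := (k : ℝ) * (2 * Real.pi) + Real.pi / 2 - n * (Real.pi / 2) with ha1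
  have h12 : a2 ≤ a1 := by rw [ha1, ha2]; linarith
  have hAM : A ≤ M' := by
    rw [hM']
    have := le_max_left (max A M) (2 * MM (n - 1) (ε / 2))
    have := le_max_left A M
    linarith
  have hMM' : M < M' := by
    rw [hM']
    have := le_max_left (max A M) (2 * MM (n - 1) (ε / 2))
    have := le_max_right A M
    linarith
  have hMM2 : 2 * MM (n - 1) (ε / 2) < M' := by
    rw [hM']
    have := le_max_right (max A M) (2 * MM (n - 1) (ε / 2))
    linarith
  have s1 := hA a1 (by linarith) 1 (k : ℤ) (Or.inl rfl) (by rw [ha1]; push_cast; ring)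
  have s2 := hA a2 (by linarith) (-1) (k : ℤ) (Or.inr rfl) (by rw [ha2]; push_cast; ring)
  have hc : Continuous fun a => dl n a ε Real.pi := by
    have := fl_cont_a n ε (Real.pi / 2) (t := Real.pi) ⟨hpi.le, by linarith⟩
    unfold dl
    fun_prop
  obtain ⟨a, ha, hz⟩ := intermediate_value_Icc' h12 hc.continuousOn
    (show (0:ℝ) ∈ Icc (dl n a1 ε Real.pi) (dl n a2 ε Real.pi) from ⟨by linarith, by linarith⟩)
  simp only at hz
  refine ⟨a, by linarith [ha.1], ?_⟩
  have h3 := half_crit (r := (n : ℤ)) (a := a) (ε := ε) (by push_cast; exact hz)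
  rcases Nat.eq_zero_or_pos n with h0 | h0
  · subst h0
    intro x
    push_cast at h3 ⊢
    rw [mul_zero, add_zero] at h3 ⊢
    exact idn_of_sym_zero h3 x
  · obtain ⟨m, rfl⟩ : ∃ m, n = m + 1 := ⟨n - 1, by omega⟩
    rw [Nat.add_sub_cancel] at hMM2
    intro x
    have h4 := idn_of_sym_pos (n := m) hε (a := a) (by linarith [ha.1]) (by
      push_cast at h3 ⊢
      exact h3) x
    push_cast at h4 ⊢
    exact h4

lemma unbounded (r : ℤ) {ε : ℝ} (hε : 0 < ε) (M : ℝ) : ∃ a, M < a ∧ Idn r ε a := by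
  rcases le_total 0 r with hr | hr
  · obtain ⟨n, rfl⟩ : ∃ n : ℕ, r = n := ⟨r.toNat, by omega⟩
    exact unbounded_nat n hε M
  · obtain ⟨n, hn⟩ : ∃ n : ℕ, -r = n := ⟨(-r).toNat, by omega⟩
    obtain ⟨a, ha, h⟩ := unbounded_nat n hε M
    refine ⟨a, ha, ?_⟩
    rw [← hn] at h
    exact Idn_neg_iff.1 h

/-- Identity points are isolated. -/
lemma isolated_nat (n : ℕ) {ε a : ℝ} (hε : 0 < ε) (ha : 0 < a) (h : Idn n ε a) :
    ∀ᶠ a' in 𝓝[≠] a, ¬ Idn n ε a' := by
  have hK : ∫ t in (0:ℝ)..(2 * Real.pi), Real.cos t *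
      Real.exp (ε * Cc (fl n a ε (Real.pi / 2)) t) ≠ 0 := by
    rw [← shift_int (f := fun t => Real.cos t * Real.exp (ε * Cc (fl n a ε (Real.pi / 2)) t))
      (fun t => by
        have := (Cc_per (m := (n:ℤ)) (b := n) (a := a) (ε := ε) (by
          have := h (Real.pi / 2)
          push_cast at this ⊢
          exact this)).2 t
        rw [Real.cos_add_two_pi, this])]
    obtain ⟨μ, hμ⟩ : ∃ μ, a = 2 * μ := ⟨a / 2, by ring⟩
    obtain ⟨e, he⟩ : ∃ e, ε = 2 * e := ⟨ε / 2, by ring⟩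
    subst hμ he
    have hμ0 : 0 < μ := by linarith
    have he0 : 0 < e := by linarith
    rcases Nat.eq_zero_or_pos n with h0 | h0
    · subst h0
      have := Ic_ne0 hμ0 he0 (fun x => by
        have := h x
        push_cast at this
        rw [mul_zero, add_zero] at this
        exact this)
      push_cast
      exact this
    · obtain ⟨m, rfl⟩ : ∃ m, n = m + 1 := ⟨n - 1, by omega⟩
      have := Ic_ne (n := m) hμ0 he0 (fun x => by
        have := h x
        push_cast at this ⊢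
        exact this)
      push_cast at this ⊢
      exact this
  have hC : Cc (fl n a ε (Real.pi / 2)) (2 * Real.pi) = 0 :=
    (Cc_per (m := (n:ℤ)) (by
      have := h (Real.pi / 2)
      push_cast at this ⊢
      exact this)).1
  have hx := h (Real.pi / 2)
  have side : ∀ σ : ℝ, (σ = 1 ∨ σ = -1) → ∀ᶠ s in 𝓝[>] (0:ℝ), ¬ Idn n ε (a + σ * s) := by
    intro σ hσ
    have hσ0 : σ ≠ 0 := by rcases hσ with rfl | rfl <;> norm_num
    have hI : ∫ u in (0:ℝ)..(2 * Real.pi), (0 + σ * Real.cos u) *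
        Real.exp (ε * Cc (fl n a ε (Real.pi / 2)) u) = σ * ∫ t in (0:ℝ)..(2 * Real.pi), Real.cos t *
      Real.exp (ε * Cc (fl n a ε (Real.pi / 2)) t) := by
      rw [← intervalIntegral.integral_const_mul]
      congr 1
      funext u
      ring
    rcases lt_or_gt_of_ne (mul_ne_zero hσ0 hK) with h1 | h1
    · filter_upwards [push_down hC (by rw [hI]; exact h1)] with s hs hid
      have h2 := hid (Real.pi / 2)
      rw [zero_mul, add_zero] at hs
      push_cast at h2 hx
      rw [h2, hx] at hs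
      exact lt_irrefl _ hs
    · filter_upwards [push_up hC (by rw [hI]; exact h1)] with s hs hid
      have h2 := hid (Real.pi / 2)
      rw [zero_mul, add_zero] at hs
      push_cast at h2 hx
      rw [h2, hx] at hs
      exact lt_irrefl _ hs
  obtain ⟨d1, hd1, h1⟩ := mem_nhdsGT_iff_exists_Ioo_subset.1 (side 1 (Or.inl rfl))
  obtain ⟨d2, hd2, h2⟩ := mem_nhdsGT_iff_exists_Ioo_subset.1 (side (-1) (Or.inr rfl))
  have hd1' : 0 < d1 := hd1
  have hd2' : 0 < d2 := hd2
  rw [eventually_nhdsWithin_iff]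
  filter_upwards [Metric.ball_mem_nhds a (lt_min hd1' hd2')] with a' ha' hne
  rw [Metric.mem_ball, Real.dist_eq] at ha'
  have hne' : a' ≠ a := hne
  rcases lt_or_gt_of_ne hne' with h3 | h3
  · have h4 : a - a' ∈ Ioo 0 d2 := by
      rw [abs_of_neg (by linarith)] at ha'
      exact ⟨by linarith, by linarith [min_le_right d1 d2]⟩
    have := h2 h4
    simp only [mem_ofPred_eq] at this
    rwa [show a + -1 * (a - a') = a' by ring] at this
  · have h4 : a' - a ∈ Ioo 0 d1 := by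
      rw [abs_of_pos (by linarith)] at ha'
      exact ⟨by linarith, by linarith [min_le_left d1 d2]⟩
    have := h1 h4
    simp only [mem_ofPred_eq] at this
    rwa [show a + 1 * (a' - a) = a' by ring] at this

lemma isolated (r : ℤ) {ε a : ℝ} (hε : 0 < ε) (ha : 0 < a) (h : Idn r ε a) :
    ∀ᶠ a' in 𝓝[≠] a, ¬ Idn r ε a' := by
  rcases le_total 0 r with hr | hr
  · obtain ⟨n, rfl⟩ : ∃ n : ℕ, r = n := ⟨r.toNat, by omega⟩
    exact isolated_nat n hε ha h
  · obtain ⟨n, hn⟩ : ∃ n : ℕ, -r = n := ⟨(-r).toNat, by omega⟩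
    have h1 := h.neg
    rw [hn] at h1
    filter_upwards [isolated_nat n hε ha h1] with a' ha' hc
    apply ha'
    rw [← hn]
    exact hc.neg

lemma finite_below (r : ℤ) {ε : ℝ} (hε : 0 < ε) (M : ℝ) :
    ({a | 0 < a ∧ Idn r ε a} ∩ Iic M).Finite := by
  by_contra hinf
  have hinf' : ({a | 0 < a ∧ Idn r ε a} ∩ Iic M).Infinite := hinf
  have hsub : {a | 0 < a ∧ Idn r ε a} ∩ Iic M ⊆ Icc ε M := fun a ha =>
    ⟨ha.1.2.ge hε ha.1.1, ha.2⟩
  obtain ⟨x, hx, hacc⟩ := hinf'.exists_accPt_of_subset_isCompact isCompact_Icc hsub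
  rw [accPt_iff_frequently_nhdsNE] at hacc
  have hx0 : 0 < x := lt_of_lt_of_le hε hx.1
  have hxI : Idn r ε x := by
    have h1 : x ∈ closure {a | Idn r ε a} := by
      rw [mem_closure_iff_frequently]
      exact (hacc.filter_mono nhdsWithin_le_nhds).mono fun y hy => hy.1.2
    rwa [(isClosed_Idn r ε).closure_eq] at h1
  obtain ⟨y, hy1, hy2⟩ := (hacc.and_eventually (isolated r hε hx0 hxI)).exists
  exact hy2 hy1.1.2

/-- Enumeration of a discrete unbounded set. -/
lemma enum {Z : Set ℝ} (hu : ∀ M, ∃ a ∈ Z, M < a) (hf : ∀ M, (Z ∩ Iic M).Finite) (h0 : ∀ a ∈ Z, 0 < a) :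
    ∃ a : ℕ → ℝ, StrictMono a ∧ Tendsto a atTop atTop ∧ 0 < a 0 ∧ ∀ x, x ∈ Z ↔ ∃ k, x = a k := by
  have hn : ∀ x : ℝ, ∃ y ∈ Z, x < y ∧ ∀ z ∈ Z, x < z → y ≤ z := by
    intro x
    obtain ⟨w, hw, hxw⟩ := hu x
    have hfin : (Z ∩ Ioc x w).Finite := (hf w).subset fun z hz => ⟨hz.1, hz.2.2⟩
    obtain ⟨y, hy, hmin⟩ := hfin.exists_minimal ⟨w, hw, hxw, le_rfl⟩
    refine ⟨y, hy.1, hy.2.1, fun z hz hxz => ?_⟩
    rcases le_total z w with h1 | h1
    · by_contra hcon
      push Not at hcon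
      have := hmin (y := z) ⟨hz, hxz, h1⟩ hcon.le
      linarith
    · exact hy.2.2.trans h1
  choose nx hnx1 hnx2 hnx3 using hn
  set a : ℕ → ℝ := fun k => Nat.rec (nx 0) (fun _ y => nx y) k with ha
  have ha0 : a 0 = nx 0 := rfl
  have has : ∀ k, a (k + 1) = nx (a k) := fun k => rfl
  have haZ : ∀ k, a k ∈ Z := by
    intro k
    cases k with
    | zero => exact hnx1 0
    | succ k => exact hnx1 (a k)
  have hmono : StrictMono a := strictMono_nat_of_lt_succ fun k => hnx2 (a k)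
  have hfin : ∀ M, ∃ k, M < a k := by
    intro M
    by_contra hcon
    push Not at hcon
    have h1 : (range a).Finite := (hf M).subset (by
      rintro _ ⟨k, rfl⟩
      exact ⟨haZ k, hcon k⟩)
    exact (Set.infinite_range_of_injective hmono.injective) h1
  refine ⟨a, hmono, ?_, h0 _ (haZ 0), fun x => ⟨fun hx => ?_, ?_⟩⟩
  · exact tendsto_atTop_atTop_of_monotone hmono.monotone fun M =>
      (hfin M).imp fun k hk => hk.le
  · by_contra hcon
    push Not at hcon
    have hlt : ∀ k, a k < x := by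
      intro k
      induction k with
      | zero => exact lt_of_le_of_ne (hnx3 0 x hx (h0 x hx)) (fun h => hcon 0 h.symm)
      | succ k ih => exact lt_of_le_of_ne (hnx3 (a k) x hx ih) (fun h => hcon (k + 1) h.symm)
    obtain ⟨k, hk⟩ := hfin x
    linarith [hlt k]
  · rintro ⟨k, rfl⟩
    exact haZ k

/-- The heights of the identity points on the axis. -/
theorem heights (r : ℤ) {ε : ℝ} (hε : 0 < ε) :
    ∃ a : ℕ → ℝ, StrictMono a ∧ Tendsto a atTop atTop ∧ 0 < a 0 ∧
      ∀ x, (0 < x ∧ Idn r ε x) ↔ ∃ k, x = a k := by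
  refine enum (Z := {a | 0 < a ∧ Idn r ε a}) (fun M => ?_) (finite_below r hε) (fun a ha => ha.1)
  obtain ⟨a, ha, h⟩ := unbounded r hε (max M 0)
  exact ⟨a, ⟨(le_max_right M 0).trans_lt ha, h⟩, (le_max_left M 0).trans_lt ha⟩

end V203PG
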