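import Pool.Agent.V203PG.A4

set_option autoImplicit false
open Set Filter Topology MeasureTheory H535R3

namespace V203PG

/-- Abstract form of a phase-lock area. -/
structure Strip (S : Set (ℝ × ℝ)) (c R : ℝ) : Prop where
  closed : IsClosed S
  bdd : ∀ p ∈ S, |p.1 - c| ≤ R
  ne : ∀ a, ∃ b, (b, a) ∈ S
  inn : ∀ b₁ b b₂ a, (b₁, a) ∈ S → (b₂, a) ∈ S → b₁ < b → b < b₂ → (b, a) ∈ interior S

lemma proj_closed {T : Set (ℝ × ℝ)} {c R : ℝ} (hT : IsClosed T) (hb : ∀ p ∈ T, |p.1 - c| ≤ R) :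
    IsClosed (Prod.snd '' T) := by
  have h1 : Prod.snd '' T = Prod.snd '' {p : Icc (c - R) (c + R) × ℝ | ((p.1 : ℝ), p.2) ∈ T} := by
    ext a
    constructor
    · rintro ⟨p, hp, rfl⟩
      have := abs_le.1 (hb p hp)
      exact ⟨(⟨p.1, by linarith, by linarith⟩, p.2), hp, rfl⟩
    · rintro ⟨⟨x, a'⟩, hx, rfl⟩
      exact ⟨_, hx, rfl⟩
  rw [h1]
  refine isClosedMap_snd_of_compactSpace _ (hT.preimage ?_)
  fun_prop

namespace Strip

variable {S : Set (ℝ × ℝ)} {c R : ℝ}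

lemma mem_of (h : Strip S c R) {b₁ b b₂ a : ℝ} (h1 : (b₁, a) ∈ S) (h2 : (b₂, a) ∈ S)
    (h3 : b₁ ≤ b) (h4 : b ≤ b₂) : (b, a) ∈ S := by
  rcases h3.lt_or_eq with h3 | rfl
  · rcases h4.lt_or_eq with h4 | rfl
    · exact interior_subset (h.inn b₁ b b₂ a h1 h2 h3 h4)
    · exact h2
  · exact h1

/-- A horizontal segment. -/
lemma hseg (b₁ b₂ a : ℝ) : IsPreconnected ((fun b => (b, a)) '' (uIcc b₁ b₂) : Set (ℝ × ℝ)) :=
  isPreconnected_uIcc.image _ (by fun_prop)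

lemma preconn (h : Strip S c R) {J : Set ℝ} (hJ : IsPreconnected J) :
    IsPreconnected {p | p ∈ S ∧ p.2 ∈ J} := by
  rw [isPreconnected_closed_iff]
  rintro t t' ht ht' hsub ⟨p, ⟨hpS, hpJ⟩, hpt⟩ ⟨p', ⟨hpS', hpJ'⟩, hpt'⟩
  have c1 : IsClosed (Prod.snd '' (S ∩ t)) := proj_closed (h.closed.inter ht) fun p hp => h.bdd p hp.1
  have c2 : IsClosed (Prod.snd '' (S ∩ t')) :=
    proj_closed (h.closed.inter ht') fun p hp => h.bdd p hp.1
  have hJsub : J ⊆ Prod.snd '' (S ∩ t) ∪ Prod.snd '' (S ∩ t') := by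
    intro a ha
    obtain ⟨b, hb⟩ := h.ne a
    rcases hsub ⟨hb, ha⟩ with h1 | h1
    · exact Or.inl ⟨(b, a), ⟨hb, h1⟩, rfl⟩
    · exact Or.inr ⟨(b, a), ⟨hb, h1⟩, rfl⟩
  obtain ⟨a, haJ, ⟨⟨b₁, a₁⟩, ⟨h1, h2⟩, h3⟩, ⟨⟨b₂, a₂⟩, ⟨h4, h5⟩, h6⟩⟩ :=
    (isPreconnected_closed_iff.1 hJ) _ _ c1 c2 hJsub ⟨p.2, hpJ, p, ⟨hpS, hpt⟩, rfl⟩
      ⟨p'.2, hpJ', p', ⟨hpS', hpt'⟩, rfl⟩
  simp only at h3 h6
  subst h3
  subst h6
  have hI : ∀ b ∈ uIcc b₁ b₂, (b, a₂) ∈ S := by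
    intro b hb
    rw [mem_uIcc] at hb
    rcases hb with ⟨h7, h8⟩ | ⟨h7, h8⟩
    · exact h.mem_of h1 h4 h7 h8
    · exact h.mem_of h4 h1 h7 h8
  obtain ⟨q, hq1, hq2⟩ := (isPreconnected_closed_iff.1 (hseg b₁ b₂ a₂)) t t' ht ht'
    (by
      rintro _ ⟨b, hb, rfl⟩
      exact hsub ⟨hI b hb, haJ⟩)
    ⟨(b₁, a₂), ⟨b₁, left_mem_uIcc, rfl⟩, h2⟩ ⟨(b₂, a₂), ⟨b₂, right_mem_uIcc, rfl⟩, h5⟩
  obtain ⟨b, hb, rfl⟩ := hq1
  exact ⟨(b, a₂), ⟨hI b hb, haJ⟩, hq2⟩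

/-- A point whose slice contains another point does not separate. -/
lemma not_cut (h : Strip S c R) {p : ℝ × ℝ} (hp0 : 0 < p.2)
    (hne : {q : ℝ × ℝ | q ∈ S ∧ q.2 = p.2} ≠ {p}) (hp : p ∈ S) :
    IsPreconnected ({q | q ∈ S ∧ 0 ≤ q.2} \ {p}) := by
  obtain ⟨b0, a0⟩ := p
  simp only at hp0 hne
  set T := {q : ℝ × ℝ | q ∈ S ∧ 0 ≤ q.2} \ {(b0, a0)} with hT
  set Th := {q : ℝ × ℝ | q ∈ S ∧ q.2 ∈ Ioi a0} with hTh
  set Tl := {q : ℝ × ℝ | q ∈ S ∧ q.2 ∈ Ico 0 a0} with hTl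
  have cTh : IsPreconnected Th := h.preconn isPreconnected_Ioi
  have cTl : IsPreconnected Tl := h.preconn isPreconnected_Ico
  have sTh : Th ⊆ T := by
    rintro q ⟨h1, h2⟩
    have h2' : a0 < q.2 := h2
    refine ⟨⟨h1, by linarith⟩, ?_⟩
    rintro rfl
    exact lt_irrefl _ h2'
  have sTl : Tl ⊆ T := by
    rintro q ⟨h1, h2⟩
    refine ⟨⟨h1, h2.1⟩, ?_⟩
    rintro rfl
    exact lt_irrefl _ h2.2
  -- vertical segments
  have key : ∀ b, (b, a0) ∈ S → b ≠ b0 → ∃ V : Set (ℝ × ℝ), IsPreconnected V ∧ V ⊆ T ∧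
      (b, a0) ∈ V ∧ (V ∩ Th).Nonempty ∧ (V ∩ Tl).Nonempty := by
    intro b hb hbb
    set m := (b + b0) / 2 with hm
    have hmi : (m, a0) ∈ interior S := by
      rcases lt_or_gt_of_ne hbb with h1 | h1
      · exact h.inn b m b0 a0 hb hp (by rw [hm]; linarith) (by rw [hm]; linarith)
      · exact h.inn b0 m b a0 hp hb (by rw [hm]; linarith) (by rw [hm]; linarith)
    rw [mem_interior_iff_mem_nhds] at hmi
    have hc : Continuous fun a : ℝ => (m, a) := by fun_prop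
    have h1 : ∀ᶠ a in 𝓝 a0, (m, a) ∈ S := hc.continuousAt.eventually hmi
    obtain ⟨d, hd, hd2⟩ := Metric.eventually_nhds_iff.1 h1
    set e := min (d / 2) (a0 / 2) with he
    have he0 : 0 < e := by positivity
    have he1 : e < d := by
      have := min_le_left (d / 2) (a0 / 2)
      linarith
    have he2 : e ≤ a0 / 2 := min_le_right _ _
    have hvS : ∀ a ∈ Icc (a0 - e) (a0 + e), (m, a) ∈ S := by
      intro a ha
      refine hd2 ?_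
      rw [Real.dist_eq, abs_lt]
      constructor <;> linarith [ha.1, ha.2]
    have hmb : m ≠ b0 := by
      intro h2
      apply hbb
      rw [hm] at h2; linarith
    refine ⟨(fun b => (b, a0)) '' (uIcc b m) ∪ (fun a => (m, a)) '' (Icc (a0 - e) (a0 + e)),
      ?_, ?_, ?_, ?_, ?_⟩
    · refine IsPreconnected.union (m, a0) ⟨m, right_mem_uIcc, rfl⟩
        ⟨a0, ⟨by linarith, by linarith⟩, rfl⟩ (hseg b m a0) ?_
      exact isPreconnected_Icc.image _ hc.continuousOn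
    · rintro q (⟨x, hx, rfl⟩ | ⟨a, ha, rfl⟩)
      · rw [mem_uIcc] at hx
        refine ⟨⟨?_, hp0.le⟩, ?_⟩
        · rcases lt_or_gt_of_ne hbb with h2 | h2
          · rcases hx with hx | hx
            · exact h.mem_of hb hp hx.1 (by rw [hm] at hx; linarith [hx.2])
            · exact h.mem_of hb hp (by rw [hm] at hx; linarith [hx.1]) (by linarith [hx.2])
          · rcases hx with hx | hx
            · exact h.mem_of hp hb (by linarith [hx.1]) (by rw [hm] at hx; linarith [hx.2])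
            · exact h.mem_of hp hb (by rw [hm] at hx; linarith [hx.1]) hx.2
        · simp only [mem_singleton_iff, Prod.mk.injEq, not_and]
          intro hxb
          exfalso
          subst hxb
          rcases lt_or_gt_of_ne hbb with h2 | h2
          · rcases hx with hx | hx
            · rw [hm] at hx; linarith [hx.2]
            · rw [hm] at hx; linarith [hx.1, hx.2]
          · rcases hx with hx | hx
            · rw [hm] at hx; linarith [hx.1, hx.2]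
            · rw [hm] at hx; linarith [hx.1]
      · refine ⟨⟨hvS a ha, by linarith [ha.1]⟩, ?_⟩
        simp only [mem_singleton_iff, Prod.mk.injEq, not_and]
        intro h3
        exact absurd h3 hmb
    · exact Or.inl ⟨b, left_mem_uIcc, rfl⟩
    · refine ⟨(m, a0 + e), Or.inr ⟨a0 + e, ⟨by linarith, le_rfl⟩, rfl⟩,
        hvS _ ⟨by linarith, le_rfl⟩, ?_⟩
      change a0 < a0 + e
      linarith
    · refine ⟨(m, a0 - e), Or.inr ⟨a0 - e, ⟨le_rfl, by linarith⟩, rfl⟩,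
        hvS _ ⟨le_rfl, by linarith⟩, ?_, ?_⟩
      · change 0 ≤ a0 - e
        linarith
      · change a0 - e < a0
        linarith
  obtain ⟨b1, hb1, hb1'⟩ : ∃ b1, (b1, a0) ∈ S ∧ b1 ≠ b0 := by
    by_contra hcon
    push Not at hcon
    apply hne
    ext ⟨b, a⟩
    simp only [mem_ofPred_eq, mem_singleton_iff, Prod.mk.injEq]
    constructor
    · rintro ⟨h1, rfl⟩
      exact ⟨hcon b h1, rfl⟩
    · rintro ⟨rfl, rfl⟩
      exact ⟨hp, rfl⟩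
  obtain ⟨V, hV1, hV2, hV3, hV4, hV5⟩ := key b1 hb1 hb1'
  obtain ⟨b2, hb2⟩ := h.ne (a0 + 1)
  have hx : (b2, a0 + 1) ∈ Th := ⟨hb2, by change a0 < a0 + 1; linarith⟩
  refine isPreconnected_of_forall (b2, a0 + 1) ?_
  rintro ⟨b, a⟩ ⟨⟨hS, ha0⟩, hnp⟩
  rcases lt_trichotomy a a0 with h1 | h1 | h1
  · refine ⟨Tl ∪ V ∪ Th, ?_, Or.inr hx, Or.inl (Or.inl ⟨hS, ha0, h1⟩), ?_⟩
    · exact union_subset (union_subset sTl hV2) sTh
    · refine IsPreconnected.union' ?_ (IsPreconnected.union' ?_ cTl hV1) cTh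
      · obtain ⟨z, hz1, hz2⟩ := hV4
        exact ⟨z, Or.inr hz1, hz2⟩
      · obtain ⟨z, hz1, hz2⟩ := hV5
        exact ⟨z, hz2, hz1⟩
  · subst h1
    have hbb : b ≠ b0 := by
      rintro rfl
      exact hnp rfl
    obtain ⟨W, hW1, hW2, hW3, hW4, -⟩ := key b hS hbb
    exact ⟨W ∪ Th, union_subset hW2 sTh, Or.inr hx, Or.inl hW3,
      IsPreconnected.union' hW4 hW1 cTh⟩
  · exact ⟨Th, sTh, hx, ⟨hS, h1⟩, cTh⟩

/-- A point which is its own slice separates. -/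
lemma cut (h : Strip S c R) {p : ℝ × ℝ} (hp0 : 0 < p.2)
    (he : {q : ℝ × ℝ | q ∈ S ∧ q.2 = p.2} = {p}) :
    ¬ IsPreconnected ({q | q ∈ S ∧ 0 ≤ q.2} \ {p}) := by
  intro hc
  have h1 := hc.image Prod.snd continuous_snd.continuousOn
  obtain ⟨b1, hb1⟩ := h.ne 0
  obtain ⟨b2, hb2⟩ := h.ne (p.2 + 1)
  have m1 : (0:ℝ) ∈ Prod.snd '' ({q | q ∈ S ∧ 0 ≤ q.2} \ {p}) :=
    ⟨(b1, 0), ⟨⟨hb1, le_rfl⟩, fun h2 => by
      rw [mem_singleton_iff] at h2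
      rw [← h2] at hp0
      exact lt_irrefl _ hp0⟩, rfl⟩
  have m2 : p.2 + 1 ∈ Prod.snd '' ({q | q ∈ S ∧ 0 ≤ q.2} \ {p}) :=
    ⟨(b2, p.2 + 1), ⟨⟨hb2, by change 0 ≤ p.2 + 1; linarith⟩, fun h2 => by
      rw [mem_singleton_iff] at h2
      have := congrArg Prod.snd h2
      simp only at this
      linarith⟩, rfl⟩
  have h2 := h1.ordConnected.out m1 m2 (show p.2 ∈ Icc 0 (p.2 + 1) from ⟨hp0.le, by linarith⟩)
  obtain ⟨q, ⟨⟨hq1, -⟩, hq3⟩, hq4⟩ := h2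
  have h3 : q ∈ {q : ℝ × ℝ | q ∈ S ∧ q.2 = p.2} := ⟨hq1, hq4⟩
  rw [he] at h3
  exact hq3 h3

end Strip

end V203PG
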