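import Pool.Agent.V203PG.A5

set_option autoImplicit false
open Set Filter Topology MeasureTheory H535R3

namespace V203PG

/-- heights of the `k`-th piece -/
def JJ (a : ℕ → ℝ) (k : ℕ) : Set ℝ := {x | 0 ≤ x ∧ (∀ j, j < k → a j < x) ∧ x < a k}

/-- the `k`-th piece -/
def cmp (S : Set (ℝ × ℝ)) (a : ℕ → ℝ) (k : ℕ) : Set (ℝ × ℝ) := {p | p ∈ S ∧ p.2 ∈ JJ a k}

lemma JJ_ord (a : ℕ → ℝ) (k : ℕ) : OrdConnected (JJ a k) := by
  refine ⟨fun x hx y hy z hz => ⟨hx.1.trans hz.1, fun j hj => (hx.2.1 j hj).trans_le hz.1,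
    hz.2.trans_lt hy.2.2⟩⟩

lemma JJ_sub {a : ℕ → ℝ} (hm : StrictMono a) (h0 : 0 < a 0) (k : ℕ) :
    ∃ l, 0 ≤ l ∧ l < a k ∧ Ioo l (a k) ⊆ JJ a k := by
  rcases k with _ | k
  · exact ⟨0, le_rfl, h0, fun x hx => ⟨hx.1.le, fun j hj => absurd hj (Nat.not_lt_zero _), hx.2⟩⟩
  · have hk : 0 < a k := h0.trans_le (hm.monotone (Nat.zero_le k))
    exact ⟨a k, hk.le, hm (Nat.lt_succ_self k), fun x hx => ⟨(hk.trans hx.1).le,
      fun j hj => (hm.monotone (Nat.lt_succ_iff.1 hj)).trans_lt hx.1, hx.2⟩⟩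

lemma JJ_ne {a : ℕ → ℝ} (hm : StrictMono a) {k : ℕ} {x : ℝ} (hx : x ∈ JJ a k) (i : ℕ) :
    x ≠ a i := by
  rintro rfl
  rcases lt_or_ge i k with h | h
  · exact lt_irrefl _ (hx.2.1 i h)
  · exact absurd (hm.monotone h) (not_le.2 hx.2.2)

lemma exists_JJ {a : ℕ → ℝ} (ht : Tendsto a atTop atTop) {x : ℝ} (hx : 0 ≤ x)
    (hne : ∀ k, x ≠ a k) : ∃ k, x ∈ JJ a k := by
  have hex : ∃ k, x < a k := by
    obtain ⟨k, hk⟩ := (ht.eventually_gt_atTop x).exists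
    exact ⟨k, hk⟩
  classical
  refine ⟨Nat.find hex, hx, fun j hj => ?_, Nat.find_spec hex⟩
  have := Nat.find_min hex hj
  push Not at this
  exact lt_of_le_of_ne this (fun h => hne j h.symm)

variable {S : Set (ℝ × ℝ)} {c R c0 : ℝ} {a : ℕ → ℝ}

lemma cmp_union (ht : Tendsto a atTop atTop) (hm : StrictMono a)
    (hs : ∀ k, {q : ℝ × ℝ | q ∈ S ∧ q.2 = a k} = {(c0, a k)}) :
    {p | p ∈ S ∧ 0 ≤ p.2} \ {p | ∃ k, p = (c0, a k)} = ⋃ k, cmp S a k := by
  ext p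
  rw [mem_iUnion]
  constructor
  · rintro ⟨⟨h1, h2⟩, h3⟩
    obtain ⟨k, hk⟩ := exists_JJ ht h2 (fun k hk => h3 ⟨k, by
      have : p ∈ {q : ℝ × ℝ | q ∈ S ∧ q.2 = a k} := ⟨h1, hk⟩
      rw [hs k] at this
      exact this⟩)
    exact ⟨k, h1, hk⟩
  · rintro ⟨k, h1, h2⟩
    refine ⟨⟨h1, h2.1⟩, ?_⟩
    rintro ⟨i, rfl⟩
    exact JJ_ne hm h2 i rfl

lemma cmp_comp (h : Strip S c R) (hm : StrictMono a) (ht : Tendsto a atTop atTop)
    (hs : ∀ k, {q : ℝ × ℝ | q ∈ S ∧ q.2 = a k} = {(c0, a k)}) (k : ℕ) {p : ℝ × ℝ}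
    (hp : p ∈ cmp S a k) :
    connectedComponentIn ({p | p ∈ S ∧ 0 ≤ p.2} \ {p | ∃ k, p = (c0, a k)}) p = cmp S a k := by
  set X := {p | p ∈ S ∧ 0 ≤ p.2} \ {p | ∃ k, p = (c0, a k)} with hX
  have hsub : cmp S a k ⊆ X := by
    rw [hX, cmp_union ht hm hs]
    exact subset_iUnion _ k
  have hpre : IsPreconnected (cmp S a k) := h.preconn (JJ_ord a k).isPreconnected
  refine Subset.antisymm ?_ (hpre.subset_connectedComponentIn hp hsub)
  have hC : IsPreconnected (Prod.snd '' connectedComponentIn X p) :=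
    isPreconnected_connectedComponentIn.image _ continuous_snd.continuousOn
  have hpC : p ∈ connectedComponentIn X p := mem_connectedComponentIn (hsub hp)
  intro q hq
  have hqX := connectedComponentIn_subset X p hq
  have hno : ∀ i, a i ∉ Prod.snd '' connectedComponentIn X p := by
    rintro i ⟨z, hz, hz2⟩
    have hzX := connectedComponentIn_subset X p hz
    have : z ∈ {q : ℝ × ℝ | q ∈ S ∧ q.2 = a i} := ⟨hzX.1.1, hz2⟩
    rw [hs i] at this
    exact hzX.2 ⟨i, this⟩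
  have m1 : p.2 ∈ Prod.snd '' connectedComponentIn X p := ⟨p, hpC, rfl⟩
  have m2 : q.2 ∈ Prod.snd '' connectedComponentIn X p := ⟨q, hq, rfl⟩
  refine ⟨hqX.1.1, hqX.1.2, fun j hj => ?_, ?_⟩
  · by_contra hcon
    push Not at hcon
    exact hno j (hC.ordConnected.out m2 m1 ⟨hcon, (hp.2.2.1 j hj).le⟩)
  · by_contra hcon
    push Not at hcon
    exact hno k (hC.ordConnected.out m1 m2 ⟨hp.2.2.2.le, hcon⟩)

lemma cmp_disj (hm : StrictMono a) {j k : ℕ} (hjk : j ≠ k) : Disjoint (cmp S a j) (cmp S a k) := by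
  rw [Set.disjoint_left]
  rintro p ⟨-, h1⟩ ⟨-, h2⟩
  rcases lt_or_gt_of_ne hjk with h | h
  · exact absurd (h2.2.1 j h) (not_lt.2 h1.2.2.le)
  · exact absurd (h1.2.1 k h) (not_lt.2 h2.2.2.le)

lemma cmp_closure_sub (h : Strip S c R) (k : ℕ) :
    closure (cmp S a k) ⊆ {p | p ∈ S ∧ (∀ j, j < k → a j ≤ p.2) ∧ p.2 ≤ a k} := by
  refine closure_minimal ?_ ?_
  · rintro p ⟨h1, h2⟩
    exact ⟨h1, fun j hj => (h2.2.1 j hj).le, h2.2.2.le⟩
  · have e : {p : ℝ × ℝ | p ∈ S ∧ (∀ j, j < k → a j ≤ p.2) ∧ p.2 ≤ a k} =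
        S ∩ ((⋂ j, ⋂ (_ : j < k), {p : ℝ × ℝ | a j ≤ p.2}) ∩ {p : ℝ × ℝ | p.2 ≤ a k}) := by
      ext p
      simp only [mem_ofPred_eq, mem_inter_iff, mem_iInter]
    rw [e]
    refine h.closed.inter (IsClosed.inter ?_ (isClosed_le continuous_snd continuous_const))
    exact isClosed_iInter fun j => isClosed_iInter fun _ =>
      isClosed_le continuous_const continuous_snd

lemma mem_closure_cmp (h : Strip S c R) (hs : ∀ k, {q : ℝ × ℝ | q ∈ S ∧ q.2 = a k} = {(c0, a k)})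
    {k i : ℕ} (hi : a i ∈ closure (JJ a k)) : (c0, a i) ∈ closure (cmp S a k) := by
  have hsub : closure (cmp S a k) ⊆ S := closure_minimal (fun p hp => hp.1) h.closed
  have hcl := proj_closed (isClosed_closure (s := cmp S a k)) (fun p hp => h.bdd p (hsub hp))
  have h1 : JJ a k ⊆ Prod.snd '' closure (cmp S a k) := by
    intro x hx
    obtain ⟨b, hb⟩ := h.ne x
    exact ⟨(b, x), subset_closure ⟨hb, hx⟩, rfl⟩
  obtain ⟨p, hp, hp2⟩ := closure_minimal h1 hcl hi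
  have h2 : p ∈ {q : ℝ × ℝ | q ∈ S ∧ q.2 = a i} := ⟨hsub hp, hp2⟩
  rw [hs i, mem_singleton_iff] at h2
  rwa [← h2]

lemma cmp_meet (h : Strip S c R) (hm : StrictMono a) (h0 : 0 < a 0)
    (hs : ∀ k, {q : ℝ × ℝ | q ∈ S ∧ q.2 = a k} = {(c0, a k)}) (k : ℕ) :
    closure (cmp S a k) ∩ closure (cmp S a (k + 1)) = {(c0, a k)} := by
  apply Subset.antisymm
  · rintro p ⟨h1, h2⟩
    have h3 := cmp_closure_sub h k h1
    have h4 := cmp_closure_sub h (k + 1) h2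
    rw [← hs k]
    exact ⟨h3.1, le_antisymm h3.2.2 (h4.2.1 k (Nat.lt_succ_self k))⟩
  · rw [singleton_subset_iff]
    refine ⟨mem_closure_cmp h hs ?_, mem_closure_cmp h hs ?_⟩
    · obtain ⟨l, hl0, hl, hsub⟩ := JJ_sub hm h0 k
      refine closure_mono hsub ?_
      rw [closure_Ioo hl.ne]
      exact ⟨hl.le, le_rfl⟩
    · have hk : 0 < a k := h0.trans_le (hm.monotone (Nat.zero_le k))
      have hlt := hm (Nat.lt_succ_self k)
      have hsub : Ioo (a k) (a (k + 1)) ⊆ JJ a (k + 1) := fun x hx => ⟨(hk.trans hx.1).le,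
        fun j hj => (hm.monotone (Nat.lt_succ_iff.1 hj)).trans_lt hx.1, hx.2⟩
      refine closure_mono hsub ?_
      rw [closure_Ioo hlt.ne]
      exact ⟨le_rfl, hlt.le⟩

lemma cmp_far (h : Strip S c R) (hm : StrictMono a) {j k : ℕ} (hjk : j + 1 < k) :
    Disjoint (closure (cmp S a j)) (closure (cmp S a k)) := by
  rw [Set.disjoint_left]
  intro p h1 h2
  have h3 := cmp_closure_sub h j h1
  have h4 := cmp_closure_sub h k h2
  have h5 := h4.2.1 (j + 1) hjk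
  have h6 := hm (Nat.lt_succ_self j)
  have h7 := h3.2.2
  have h8 : a j < a (j + 1) := h6
  linarith

lemma cmp_bdd (h : Strip S c R) (k : ℕ) : Bornology.IsBounded (cmp S a k) := by
  refine ((Metric.isBounded_Icc (c - R) (c + R)).prod (Metric.isBounded_Icc 0 (a k))).subset ?_
  rintro p ⟨h1, h2⟩
  have := abs_le.1 (h.bdd p h1)
  exact ⟨⟨by linarith, by linarith⟩, ⟨h2.1, h2.2.2.le⟩⟩

lemma cmp_int (h : Strip S c R) (hm : StrictMono a) (h0 : 0 < a 0)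
    (hnd : ∀ x, 0 < x → (∀ k, x ≠ a k) → ∃ b₁ b₂, b₁ < b₂ ∧ (b₁, x) ∈ S ∧ (b₂, x) ∈ S) (k : ℕ) :
    (interior (cmp S a k)).Nonempty := by
  obtain ⟨l, hl0, hl, hsub⟩ := JJ_sub hm h0 k
  obtain ⟨x, hx⟩ := exists_between hl
  obtain ⟨b₁, b₂, hb, h1, h2⟩ := hnd x (hl0.trans_lt hx.1) (JJ_ne hm (hsub hx))
  have h3 := h.inn b₁ ((b₁ + b₂) / 2) b₂ x h1 h2 (by linarith) (by linarith)
  refine ⟨((b₁ + b₂) / 2, x), ?_⟩
  have h4 : interior S ∩ Prod.snd ⁻¹' (Ioo l (a k)) ⊆ interior (cmp S a k) := by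
    refine interior_maximal ?_ (isOpen_interior.inter (isOpen_Ioo.preimage continuous_snd))
    rintro p ⟨h5, h6⟩
    exact ⟨interior_subset h5, hsub h6⟩
  exact h4 ⟨h3, hx⟩

/-- integral form of the return map -/
lemma P_bound {b a ε x : ℝ} (hε : 0 < ε) : |P b a ε x - x - 2 * Real.pi * b| ≤ 2 * Real.pi * ε := by
  have hpi := Real.two_pi_pos
  set f : ℝ → ℝ := fun t => fl b a ε x t - b * t - a * Real.sin t with hf
  have hd : ∀ t, HasDerivAt f (-ε * Real.sin (fl b a ε x t)) t := by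
    intro t
    have h1 := ((fl_sol b a ε x t).sub ((hasDerivAt_id t).const_mul b)).sub
      ((Real.hasDerivAt_sin t).const_mul a)
    refine h1.congr_deriv ?_
    ring
  have h1 := (convex_univ (𝕜 := ℝ) (E := ℝ)).norm_image_sub_le_of_norm_hasDerivWithin_le
    (f := f) (C := ε) (fun t _ => (hd t).hasDerivWithinAt) (fun t _ => by
      rw [Real.norm_eq_abs, abs_mul, abs_neg, abs_of_pos hε]
      exact mul_le_of_le_one_right hε.le (Real.abs_sin_le_one _)) (mem_univ 0)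
    (mem_univ (2 * Real.pi))
  rw [Real.norm_eq_abs, Real.norm_eq_abs, sub_zero, abs_of_pos hpi] at h1
  simp only [hf, fl_zero, Real.sin_two_pi, Real.sin_zero, mul_zero, sub_zero] at h1
  have h2 : P b a ε x - x - 2 * Real.pi * b = fl b a ε x (2 * Real.pi) - b * (2 * Real.pi) - x := by
    rw [P]; ring
  rw [h2]
  linarith

/-- The scaled phase-lock area is a strip. -/
lemma strip_Ls (r : ℤ) {ε : ℝ} (hε : 0 < ε) : Strip (Ls r ε) r ε where
  closed := isClosed_Ls r ε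
  bdd := by
    rintro ⟨b, a⟩ ⟨x, hx⟩
    simp only at hx ⊢
    have h1 := P_bound (b := b) (a := a) (x := x) hε
    have hpi := Real.two_pi_pos
    rw [hx, show x + 2 * Real.pi * r - x - 2 * Real.pi * b = -(2 * Real.pi * (b - r)) by ring,
      abs_neg, abs_mul, abs_of_pos hpi] at h1
    exact le_of_mul_le_mul_left h1 hpi
  ne := by
    intro a
    have hpi := Real.two_pi_pos
    have h1 := abs_le.1 (P_bound (b := (r:ℝ) - ε) (a := a) (x := 0) hε)
    have h2 := abs_le.1 (P_bound (b := (r:ℝ) + ε) (a := a) (x := 0) hε)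
    have hc : Continuous fun b : ℝ => P b a ε 0 :=
      continuous_P.comp (f := fun b : ℝ => (b, a, ε, (0:ℝ))) (by fun_prop)
    obtain ⟨b, hb⟩ := mem_range_of_exists_le_of_exists_ge hc (c := 2 * Real.pi * r)
      ⟨(r:ℝ) - ε, by linarith [h1.2]⟩ ⟨(r:ℝ) + ε, by linarith [h2.1]⟩
    exact ⟨b, 0, by simp only at hb ⊢; rw [hb]; ring⟩
  inn := by
    rintro b₁ b b₂ a ⟨x, hx⟩ ⟨y, hy⟩ h1 h2
    simp only at hx hy
    have h3 := P_lt_of_b (a := a) (ε := ε) (x := x) h1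
    have h4 := P_lt_of_b (a := a) (ε := ε) (x := y) h2
    exact mem_interior_Ls (q := (b, a)) (u := x) (v := y) (by simp only; linarith)
      (by simp only; linarith)

end V203PG
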