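import Pool.Agent.V203PG.A4

set_option autoImplicit false
open Set Filter Topology MeasureTheory H535R3

namespace V203PG

/-- `∫₀^π cos(r t + a sin t) dt`. -/
noncomputable def Iz (r : ℤ) (a : ℝ) : ℝ := ∫ t in (0:ℝ)..Real.pi, Real.cos (r * t + a * Real.sin t)

lemma Iz_deriv (r : ℤ) (a : ℝ) : HasDerivAt (Iz r) ((Iz (r + 1) a - Iz (r - 1) a) / 2) a := by
  have h := intervalIntegral.hasDerivAt_integral_of_dominated_loc_of_deriv_le
    (μ := volume) (a := (0:ℝ)) (b := Real.pi)
    (F := fun a t => Real.cos (r * t + a * Real.sin t))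
    (F' := fun a t => -Real.sin (r * t + a * Real.sin t) * Real.sin t) (x₀ := a)
    (s := univ) (bound := fun _ => 1) univ_mem
    (Eventually.of_forall fun a => (by fun_prop : Continuous fun t : ℝ =>
      Real.cos (r * t + a * Real.sin t)).aestronglyMeasurable)
    (Continuous.intervalIntegrable (by fun_prop) _ _)
    ((by fun_prop : Continuous fun t : ℝ =>
      -Real.sin (r * t + a * Real.sin t) * Real.sin t).aestronglyMeasurable)
    (Eventually.of_forall fun t _ x _ => by
      rw [Real.norm_eq_abs, abs_mul, abs_neg]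
      exact mul_le_one₀ (Real.abs_sin_le_one _) (abs_nonneg _) (Real.abs_sin_le_one _))
    intervalIntegrable_const
    (Eventually.of_forall fun t _ x _ => by
      have h1 : HasDerivAt (fun a : ℝ => r * t + a * Real.sin t) (Real.sin t) x := by
        have := ((hasDerivAt_id x).mul_const (Real.sin t)).const_add (r * t)
        simpa using this
      exact h1.cos)
  have h2 := h.2
  refine h2.congr_deriv ?_
  unfold Iz
  rw [← intervalIntegral.integral_sub (Continuous.intervalIntegrable (by fun_prop) _ _)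
    (Continuous.intervalIntegrable (by fun_prop) _ _), ← intervalIntegral.integral_div]
  congr 1
  funext t
  push_cast
  have e1 : ((r:ℝ) + 1) * t + a * Real.sin t = (r * t + a * Real.sin t) + t := by ring
  have e2 : ((r:ℝ) - 1) * t + a * Real.sin t = (r * t + a * Real.sin t) - t := by ring
  rw [e1, e2, Real.cos_add, Real.cos_sub]
  ring

lemma Iz_zero (r : ℤ) : Iz r 0 = if r = 0 then Real.pi else 0 := by
  unfold Iz
  simp only [zero_mul, add_zero]
  split_ifs with h
  · subst h; simp
  · have hr : (r:ℝ) ≠ 0 := by exact_mod_cast h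
    have h1 : ∫ t in (0:ℝ)..Real.pi, Real.cos (r * t) =
        Real.sin (r * Real.pi) / r - Real.sin (r * 0) / r := by
      refine intervalIntegral.integral_eq_sub_of_hasDerivAt (f := fun t => Real.sin (r * t) / r)
        (fun t _ => ?_) (Continuous.intervalIntegrable (by fun_prop) _ _)
      have := (((hasDerivAt_id t).const_mul (r:ℝ)).sin).div_const (r:ℝ)
      refine this.congr_deriv ?_
      simp only [id, mul_one]
      field_simp
    rw [h1, Real.sin_int_mul_pi]
    simp

lemma Iz_abs (r : ℤ) (a : ℝ) : |Iz r a| ≤ Real.pi := by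
  have := int_abs (f := fun t => Real.cos (r * t + a * Real.sin t)) (c := 1) Real.pi_pos.le
    (fun t _ => Real.abs_cos_le_one _)
  rw [sub_zero, one_mul] at this
  exact this

/-- Taylor coefficients. -/
noncomputable def cc : ℕ → ℤ → ℝ
  | 0, r => if r = 0 then 1 else 0
  | k + 1, r => (cc k (r + 1) - cc k (r - 1)) / (2 * (k + 1))

noncomputable def TT (K : ℕ) (r : ℤ) (a : ℝ) : ℝ := ∑ k ∈ Finset.range K, cc k r * a ^ k

lemma TT_deriv (K : ℕ) (r : ℤ) (a : ℝ) :
    HasDerivAt (TT (K + 1) r) ((TT K (r + 1) a - TT K (r - 1) a) / 2) a := by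
  have h1 : HasDerivAt (TT (K + 1) r)
      (∑ k ∈ Finset.range (K + 1), cc k r * (k * a ^ (k - 1))) a := by
    unfold TT
    exact HasDerivAt.fun_sum fun k _ => (hasDerivAt_pow k a).const_mul _
  refine h1.congr_deriv ?_
  rw [Finset.sum_range_succ']
  simp only [Nat.cast_zero, zero_mul, mul_zero, add_zero, Nat.add_sub_cancel]
  unfold TT
  rw [← Finset.sum_sub_distrib, Finset.sum_div]
  refine Finset.sum_congr rfl fun k _ => ?_
  rw [cc]
  push_cast
  have : (k:ℝ) + 1 ≠ 0 := by positivity
  field_simp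

lemma TT_zero (K : ℕ) (r : ℤ) : TT (K + 1) r 0 = if r = 0 then 1 else 0 := by
  unfold TT
  rw [Finset.sum_range_succ']
  simp [cc]

lemma Iz_taylor (K : ℕ) : ∀ (r : ℤ) {a : ℝ}, 0 ≤ a →
    |Iz r a - Real.pi * TT K r a| ≤ Real.pi * (a ^ K / (K.factorial : ℝ)) := by
  have hpi := Real.pi_pos
  induction K with
  | zero =>
    intro r a _
    simp only [TT, Finset.range_zero, Finset.sum_empty, mul_zero, sub_zero, pow_zero,
      Nat.factorial_zero, Nat.cast_one, div_one, mul_one]
    exact Iz_abs r a
  | succ K ih =>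
    intro r a ha
    set f : ℝ → ℝ := fun x => Iz r x - Real.pi * TT (K + 1) r x with hf
    have hd : ∀ x, HasDerivAt f ((Iz (r + 1) x - Iz (r - 1) x) / 2 -
        Real.pi * ((TT K (r + 1) x - TT K (r - 1) x) / 2)) x := fun x =>
      (Iz_deriv r x).sub ((TT_deriv K r x).const_mul _)
    have hf0 : f 0 = 0 := by
      simp only [hf]
      rw [Iz_zero, TT_zero]
      split_ifs <;> simp
    have hb : ∀ x, 0 ≤ x → |(Iz (r + 1) x - Iz (r - 1) x) / 2 -
        Real.pi * ((TT K (r + 1) x - TT K (r - 1) x) / 2)| ≤ Real.pi * (x ^ K / (K.factorial : ℝ)) := by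
      intro x hx
      have h1 := abs_le.1 (ih (r + 1) hx)
      have h2 := abs_le.1 (ih (r - 1) hx)
      rw [abs_le]
      constructor <;> linarith [h1.1, h1.2, h2.1, h2.2]
    set g : ℝ → ℝ := fun x => Real.pi * (x ^ (K + 1) / ((K + 1).factorial : ℝ)) with hg
    have hgd : ∀ x, HasDerivAt g (Real.pi * (x ^ K / (K.factorial : ℝ))) x := by
      intro x
      have h1 := ((hasDerivAt_pow (K + 1) x).div_const ((K + 1).factorial : ℝ)).const_mul Real.pi
      refine h1.congr_deriv ?_
      rw [Nat.factorial_succ]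
      push_cast
      have h2 : (K:ℝ) + 1 ≠ 0 := by positivity
      have h3 : (K.factorial : ℝ) ≠ 0 := by positivity
      field_simp
    have hg0 : g 0 = 0 := by simp [hg]
    have m1 : MonotoneOn (fun x => g x - f x) (Ici 0) := by
      refine monotoneOn_of_deriv_nonneg (convex_Ici 0) ?_ ?_ ?_
      · exact fun x _ => ((hgd x).sub (hd x)).continuousAt.continuousWithinAt
      · exact fun x _ => ((hgd x).sub (hd x)).differentiableAt.differentiableWithinAt
      · intro x hx
        rw [interior_Ici] at hx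
        have h1 := ((hgd x).sub (hd x)).deriv
        have h2 : deriv (fun x => g x - f x) x = _ := h1
        rw [h2]
        linarith [(abs_le.1 (hb x (le_of_lt hx))).2]
    have m2 : MonotoneOn (fun x => g x + f x) (Ici 0) := by
      refine monotoneOn_of_deriv_nonneg (convex_Ici 0) ?_ ?_ ?_
      · exact fun x _ => ((hgd x).add (hd x)).continuousAt.continuousWithinAt
      · exact fun x _ => ((hgd x).add (hd x)).differentiableAt.differentiableWithinAt
      · intro x hx
        rw [interior_Ici] at hx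
        have h1 := ((hgd x).add (hd x)).deriv
        have h2 : deriv (fun x => g x + f x) x = _ := h1
        rw [h2]
        linarith [(abs_le.1 (hb x (le_of_lt hx))).1]
    have k1 := m1 (mem_Ici.2 le_rfl) (mem_Ici.2 ha) ha
    have k2 := m2 (mem_Ici.2 le_rfl) (mem_Ici.2 ha) ha
    simp only [hf0, hg0, sub_zero, add_zero] at k1 k2
    change |f a| ≤ g a
    rw [abs_le]
    constructor <;> linarith

lemma cc_big (k : ℕ) : ∀ r : ℤ, (k : ℤ) < r → cc k r = 0 := by
  induction k with
  | zero => intro r hr; rw [cc, if_neg (by omega)]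
  | succ k ih =>
    intro r hr
    rw [cc, ih (r + 1) (by push_cast at hr; omega), ih (r - 1) (by push_cast at hr; omega)]
    simp

lemma cc_odd (k : ℕ) : ∀ r : ℤ, Odd ((k : ℤ) - r) → cc k r = 0 := by
  induction k with
  | zero =>
    intro r hr
    rw [cc, if_neg]
    rintro rfl
    simp at hr
  | succ k ih =>
    intro r hr
    have h1 : Odd ((k : ℤ) - (r + 1)) := by
      obtain ⟨m, hm⟩ := hr
      exact ⟨m - 1, by push_cast at hm; omega⟩
    have h2 : Odd ((k : ℤ) - (r - 1)) := by
      obtain ⟨m, hm⟩ := hr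
      exact ⟨m, by push_cast at hm; omega⟩
    rw [cc, ih _ h1, ih _ h2]
    simp

lemma cc_eq (k : ℕ) : ∀ j : ℕ, cc k (k - 2 * j) =
    (-1) ^ (k + j) * (k.choose j : ℝ) / (2 ^ k * (k.factorial : ℝ)) := by
  induction k with
  | zero =>
    intro j
    rw [cc]
    rcases j with _ | j
    · simp
    · rw [if_neg (by push_cast; omega)]
      simp
  | succ k ih =>
    intro j
    rw [cc]
    have h1 := ih j
    rw [show ((k + 1 : ℕ) : ℤ) - 2 * (j : ℤ) - 1 = k - 2 * j by push_cast; ring, h1]
    have hk : (k:ℝ) + 1 ≠ 0 := by positivity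
    have hf : (k.factorial : ℝ) ≠ 0 := by positivity
    rcases j with _ | j
    · rw [cc_big k _ (by push_cast; omega), Nat.factorial_succ]
      push_cast
      simp only [Nat.choose_zero_right, Nat.cast_one]
      rw [pow_succ (-1 : ℝ) k, pow_succ (2:ℝ) k]
      field_simp
      ring
    · have h2 := ih j
      rw [show ((k + 1 : ℕ) : ℤ) - 2 * ((j + 1 : ℕ) : ℤ) + 1 = k - 2 * j by push_cast; ring, h2,
        Nat.factorial_succ, Nat.choose_succ_succ]
      push_cast
      rw [pow_succ (2:ℝ) k, show k + 1 + (j + 1) = k + j + 2 by ring,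
        show k + (j + 1) = k + j + 1 by ring, pow_add (-1:ℝ) (k + j) 2, pow_succ (-1:ℝ) (k + j)]
      field_simp
      ring

/-- The polynomial in closed form. -/
lemma TT_eq (n M : ℕ) (a : ℝ) : TT (n + 2 * M) n a =
    (-1) ^ n * ∑ j ∈ Finset.range M, (-1) ^ j * (a / 2) ^ (n + 2 * j) /
      ((j.factorial : ℝ) * ((j + n).factorial : ℝ)) := by
  induction M with
  | zero =>
    simp only [mul_zero, add_zero, Finset.range_zero, Finset.sum_empty]
    unfold TT
    refine Finset.sum_eq_zero fun k hk => ?_
    rw [cc_big k _ (by exact_mod_cast Finset.mem_range.1 hk), zero_mul]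
  | succ M ih =>
    rw [show n + 2 * (M + 1) = n + 2 * M + 1 + 1 by ring]
    unfold TT at ih ⊢
    rw [Finset.sum_range_succ, Finset.sum_range_succ, ih, Finset.sum_range_succ, mul_add]
    have h1 := cc_eq (n + 2 * M) M
    rw [show ((n + 2 * M : ℕ) : ℤ) - 2 * (M : ℤ) = n by push_cast; ring] at h1
    have h2 := cc_odd (n + 2 * M + 1) n ⟨M, by push_cast; ring⟩
    rw [h1, h2, zero_mul, add_zero]
    congr 1
    have h3 := Nat.choose_mul_factorial_mul_factorial (n := n + 2 * M) (k := M) (by omega)
    rw [show n + 2 * M - M = M + n by omega] at h3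
    have h4 : ((n + 2 * M).choose M : ℝ) * (M.factorial : ℝ) * ((M + n).factorial : ℝ) =
        ((n + 2 * M).factorial : ℝ) := by exact_mod_cast h3
    have h5 : (M.factorial : ℝ) ≠ 0 := by positivity
    have h6 : ((M + n).factorial : ℝ) ≠ 0 := by positivity
    have h7 : ((n + 2 * M).choose M : ℝ) ≠ 0 := by
      have : 0 < (n + 2 * M).choose M := Nat.choose_pos (by omega)
      positivity
    rw [← h4, div_pow, show n + 2 * M + M = n + (M + 2 * M) by ring, pow_add (-1:ℝ) n,
      pow_add (-1:ℝ) M, pow_mul (-1:ℝ) 2 M]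
    simp only [neg_sq, one_pow, mul_one]
    field_simp

end V203PG
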