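import Pool.Agent.V203PG.B1

set_option autoImplicit false
open Set Filter Topology MeasureTheory H535R3

namespace V203PG

noncomputable def QQ (n M : ℕ) (y : ℝ) : ℝ := ∑ j ∈ Finset.range M, (-1) ^ j * y ^ j /
      ((j.factorial : ℝ) * ((j + n).factorial : ℝ))

lemma QQ_deriv (n M : ℕ) (y : ℝ) : HasDerivAt (QQ n (M + 1)) (-QQ (n + 1) M y) y := by
  have h1 : HasDerivAt (QQ n (M + 1))
      (∑ j ∈ Finset.range (M + 1), (-1) ^ j * (j * y ^ (j - 1)) /
      ((j.factorial : ℝ) * ((j + n).factorial : ℝ))) y := by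
    unfold QQ
    exact HasDerivAt.fun_sum fun k _ => ((hasDerivAt_pow k y).const_mul _).div_const _
  refine h1.congr_deriv ?_
  rw [Finset.sum_range_succ']
  simp only [Nat.cast_zero, zero_mul, mul_zero, zero_div, add_zero, Nat.add_sub_cancel]
  unfold QQ
  rw [← Finset.sum_neg_distrib]
  refine Finset.sum_congr rfl fun k _ => ?_
  rw [Nat.factorial_succ, show k + 1 + n = k + (n + 1) by ring, pow_succ (-1:ℝ) k]
  push_cast
  have h2 : (k:ℝ) + 1 ≠ 0 := by positivity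
  have h3 : (k.factorial : ℝ) ≠ 0 := by positivity
  have h4 : ((k + (n + 1)).factorial : ℝ) ≠ 0 := by positivity
  field_simp

lemma QQ_step {n M : ℕ} {Y : ℝ} (hY : 0 ≤ Y) (h : ∀ y ∈ Icc 0 Y, 0 ≤ QQ (n + 1) M y) :
    ∀ y ∈ Icc 0 Y, QQ n (M + 1) Y ≤ QQ n (M + 1) y := by
  have h1 : AntitoneOn (QQ n (M + 1)) (Icc 0 Y) := by
    refine antitoneOn_of_deriv_nonpos (convex_Icc 0 Y) ?_ ?_ ?_
    · exact fun x _ => (QQ_deriv n M x).continuousAt.continuousWithinAt
    · exact fun x _ => (QQ_deriv n M x).differentiableAt.differentiableWithinAt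
    · intro x hx
      rw [interior_Icc] at hx
      rw [(QQ_deriv n M x).deriv]
      linarith [h x ⟨hx.1.le, hx.2.le⟩]
  exact fun y hy => h1 hy ⟨hY, le_rfl⟩ hy.2

lemma Q66 {y : ℝ} (h0 : 0 ≤ y) (h1 : y ≤ 263169 / 40000) : 0 ≤ QQ 6 6 y := by
  unfold QQ
  simp only [Finset.sum_range_succ, Finset.range_zero, Finset.sum_empty, Nat.factorial]
  norm_num
  have a1 : 0 ≤ 1 - y / 7 := by linarith
  have a2 : 0 ≤ 1 - y / 27 := by linarith
  have a3 : 0 ≤ 1 - y / 55 := by linarith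
  have b1 : 0 ≤ 1 / 720 * (1 - y / 7) := by positivity
  have b2 : 0 ≤ y ^ 2 / 80640 * (1 - y / 27) := by positivity
  have b3 : 0 ≤ y ^ 4 / 87091200 * (1 - y / 55) := by positivity
  nlinarith [b1, b2, b3]

lemma Q2_lb {y : ℝ} (h0 : 0 ≤ y) (h1 : y ≤ 263169 / 40000) : 28 / 100000 ≤ QQ 2 10 y := by
  have hY : (0:ℝ) ≤ 263169 / 40000 := by norm_num
  have s6 : ∀ y ∈ Icc (0:ℝ) (263169 / 40000), 0 ≤ QQ 6 6 y := fun y hy => Q66 hy.1 hy.2
  have v5 : (0:ℝ) ≤ QQ 5 7 (263169 / 40000) := by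
    unfold QQ
    simp only [Finset.sum_range_succ, Finset.range_zero, Finset.sum_empty, Nat.factorial]
    norm_num
  have s5 : ∀ y ∈ Icc (0:ℝ) (263169 / 40000), 0 ≤ QQ 5 7 y := fun y hy =>
    v5.trans (QQ_step hY s6 y hy)
  have v4 : (0:ℝ) ≤ QQ 4 8 (263169 / 40000) := by
    unfold QQ
    simp only [Finset.sum_range_succ, Finset.range_zero, Finset.sum_empty, Nat.factorial]
    norm_num
  have s4 : ∀ y ∈ Icc (0:ℝ) (263169 / 40000), 0 ≤ QQ 4 8 y := fun y hy =>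
    v4.trans (QQ_step hY s5 y hy)
  have v3 : (0:ℝ) ≤ QQ 3 9 (263169 / 40000) := by
    unfold QQ
    simp only [Finset.sum_range_succ, Finset.range_zero, Finset.sum_empty, Nat.factorial]
    norm_num
  have s3 : ∀ y ∈ Icc (0:ℝ) (263169 / 40000), 0 ≤ QQ 3 9 y := fun y hy =>
    v3.trans (QQ_step hY s4 y hy)
  have v2 : (28 / 100000 : ℝ) ≤ QQ 2 10 (263169 / 40000) := by
    unfold QQ
    simp only [Finset.sum_range_succ, Finset.range_zero, Finset.sum_empty, Nat.factorial]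
    norm_num
  exact v2.trans (QQ_step hY s3 y ⟨h0, h1⟩)

lemma Iz2_lb {a : ℝ} (h0 : 2 ≤ a) (h1 : a ≤ 513 / 100) : 27 / 100000 * Real.pi ≤ Iz 2 a := by
  have hpi := Real.pi_pos
  have h2 := Iz_taylor 22 2 (a := a) (by linarith)
  have h3 := TT_eq 2 10 a
  rw [show 2 + 2 * 10 = 22 by norm_num, show ((2:ℕ):ℤ) = 2 by rfl] at h3
  have h4 : TT 22 2 a = (a / 2) ^ 2 * QQ 2 10 ((a / 2) ^ 2) := by
    rw [h3]
    unfold QQ
    rw [Finset.mul_sum, Finset.mul_sum]
    refine Finset.sum_congr rfl fun j _ => ?_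
    rw [pow_add, pow_mul]
    ring
  have h5 := Q2_lb (y := (a / 2) ^ 2) (by positivity) (by nlinarith)
  have h6 : 28 / 100000 ≤ TT 22 2 a := by
    rw [h4]
    have : 1 ≤ (a / 2) ^ 2 := by nlinarith
    nlinarith
  have h7 : a ^ 22 / (Nat.factorial 22 : ℝ) ≤ 1 / 100000 := by
    have h8 : a ^ 22 ≤ (513 / 100) ^ 22 := pow_le_pow_left₀ (by linarith) h1 22
    rw [div_le_iff₀ (by positivity)]
    refine h8.trans ?_
    simp only [Nat.factorial]
    norm_num
  have h9 := (abs_le.1 h2).1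
  nlinarith

lemma Iz1_lo : Iz 1 2 ≤ -(1 / 1000) := by
  have hpi := Real.pi_gt_three
  have h2 := Iz_taylor 19 1 (a := 2) (by norm_num)
  have h3 := TT_eq 1 9 2
  rw [show 1 + 2 * 9 = 19 by norm_num, show ((1:ℕ):ℤ) = 1 by rfl] at h3
  have h4 : TT 19 1 2 + 2 ^ 19 / (Nat.factorial 19 : ℝ) ≤ -(1 / 1000) := by
    rw [h3]
    simp only [Finset.sum_range_succ, Finset.range_zero, Finset.sum_empty, Nat.factorial]
    norm_num
  have h9 := (abs_le.1 h2).2
  nlinarith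

lemma Iz1_hi : 1 / 1000 ≤ Iz 1 (384 / 100) := by
  have hpi := Real.pi_gt_three
  have h2 := Iz_taylor 19 1 (a := 384 / 100) (by norm_num)
  have h3 := TT_eq 1 9 (384 / 100)
  rw [show 1 + 2 * 9 = 19 by norm_num, show ((1:ℕ):ℤ) = 1 by rfl] at h3
  have h4 : 1 / 1000 ≤ TT 19 1 (384 / 100) - (384 / 100) ^ 19 / (Nat.factorial 19 : ℝ) := by
    rw [h3]
    simp only [Finset.sum_range_succ, Finset.range_zero, Finset.sum_empty, Nat.factorial]
    norm_num
  have h9 := (abs_le.1 h2).1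
  nlinarith

lemma Iz3_lo : Iz 3 4 ≤ -(1 / 1000) := by
  have hpi := Real.pi_gt_three
  have h2 := Iz_taylor 25 3 (a := 4) (by norm_num)
  have h3 := TT_eq 3 11 4
  rw [show 3 + 2 * 11 = 25 by norm_num, show ((3:ℕ):ℤ) = 3 by rfl] at h3
  have h4 : TT 25 3 4 + 4 ^ 25 / (Nat.factorial 25 : ℝ) ≤ -(1 / 1000) := by
    rw [h3]
    simp only [Finset.sum_range_succ, Finset.range_zero, Finset.sum_empty, Nat.factorial]
    norm_num
  have h9 := (abs_le.1 h2).2
  nlinarith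

lemma Iz3_hi : 1 / 1000 ≤ Iz 3 (639 / 100) := by
  have hpi := Real.pi_gt_three
  have h2 := Iz_taylor 25 3 (a := 639 / 100) (by norm_num)
  have h3 := TT_eq 3 11 (639 / 100)
  rw [show 3 + 2 * 11 = 25 by norm_num, show ((3:ℕ):ℤ) = 3 by rfl] at h3
  have h4 : 1 / 1000 ≤ TT 25 3 (639 / 100) - (639 / 100) ^ 25 / (Nat.factorial 25 : ℝ) := by
    rw [h3]
    simp only [Finset.sum_range_succ, Finset.range_zero, Finset.sum_empty, Nat.factorial]
    norm_num
  have h9 := (abs_le.1 h2).1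
  nlinarith

/-- first order approximation -/
lemma dl_first (r : ℤ) {a ε : ℝ} (hε : 0 < ε) :
    |dl r a ε Real.pi + ε * Iz r a| ≤ ε ^ 2 * 16 := by
  have hpi := Real.pi_pos
  have hpi4 := Real.pi_le_four
  have hc := dl_cont r a ε
  have hfc : Continuous (fl r a ε (Real.pi / 2)) := (fl_sol r a ε (Real.pi / 2)).cont
  have hb : ∀ T ∈ Icc 0 Real.pi, |dl r a ε T| ≤ ε * 4 := by
    intro T hT
    have h1 := (convex_univ (𝕜 := ℝ) (E := ℝ)).norm_image_sub_le_of_norm_hasDerivWithin_le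
      (f := dl r a ε) (C := ε) (fun t _ => (dl_deriv r a ε t).hasDerivWithinAt)
      (fun t _ => dl_deriv_abs hε t) (mem_univ 0) (mem_univ T)
    rw [dl_zero, sub_zero, sub_zero, Real.norm_eq_abs, Real.norm_eq_abs, abs_of_nonneg hT.1] at h1
    refine h1.trans (mul_le_mul_of_nonneg_left (by linarith [hT.2]) hε.le)
  have h1 : ∫ t in (0:ℝ)..Real.pi, -ε * Real.sin (fl r a ε (Real.pi / 2) t) =
      dl r a ε Real.pi - dl r a ε 0 :=
    intervalIntegral.integral_eq_sub_of_hasDerivAt (fun t _ => dl_deriv r a ε t)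
      (Continuous.intervalIntegrable (by fun_prop) _ _)
  rw [dl_zero, sub_zero] at h1
  have h2 : dl r a ε Real.pi + ε * Iz r a = ∫ t in (0:ℝ)..Real.pi,
      (-ε * Real.sin (fl r a ε (Real.pi / 2) t) + ε * Real.cos (r * t + a * Real.sin t)) := by
    rw [intervalIntegral.integral_add (Continuous.intervalIntegrable (by fun_prop) _ _)
      (Continuous.intervalIntegrable (by fun_prop) _ _), h1, intervalIntegral.integral_const_mul]
    rfl
  rw [h2]
  have h3 := int_abs (f := fun t => -ε * Real.sin (fl r a ε (Real.pi / 2) t) +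
    ε * Real.cos (r * t + a * Real.sin t)) (c := ε * (ε * 4)) hpi.le (fun t ht => by
      have e1 : -ε * Real.sin (fl r a ε (Real.pi / 2) t) + ε * Real.cos (r * t + a * Real.sin t) =
          ε * (Real.sin (r * t + a * Real.sin t + Real.pi / 2) -
            Real.sin (fl r a ε (Real.pi / 2) t)) := by
        rw [Real.sin_add_pi_div_two]; ring
      rw [e1, abs_mul, abs_of_pos hε]
      refine mul_le_mul_of_nonneg_left ?_ hε.le
      refine (Real.abs_sin_sub_sin_le _ _).trans ?_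
      have e2 : r * t + a * Real.sin t + Real.pi / 2 - fl r a ε (Real.pi / 2) t =
          -(dl r a ε t) := by
        simp only [dl]; ring
      rw [e2, abs_neg]
      exact hb t ht)
  refine h3.trans ?_
  nlinarith [mul_pos hε hε]

/-- converse of the half-period criterion -/
lemma half_of {r : ℤ} {a ε : ℝ} (h : Idn r ε a) : dl r a ε Real.pi = 0 := by
  have h1 := fl_per (h (Real.pi / 2)) (-Real.pi)
  rw [show -Real.pi + 2 * Real.pi = Real.pi by ring, sym_sol] at h1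
  simp only [dl, Real.sin_pi]
  linarith

lemma low2 {a ε : ℝ} (hε : 0 < ε) (hε1 : ε ≤ 1 / 100000) (ha : 0 < a) (h : Idn 2 ε a) :
    513 / 100 < a := by
  by_contra hcon
  push Not at hcon
  have h1 := ident_height (n := 1) hε ha (fun x => by
    have := h x
    push_cast at this ⊢
    rw [show (1:ℝ) + 1 = 2 by norm_num]
    exact this)
  push_cast at h1
  have h2 := Iz2_lb (a := a) (by linarith) hcon
  have h3 := dl_first 2 (a := a) hε
  rw [half_of h, zero_add, abs_mul, abs_of_pos hε] at h3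
  have h4 := le_abs_self (Iz 2 a)
  have hpi := Real.pi_gt_three
  have h5 : ε * |Iz 2 a| ≤ ε * (ε * 16) := by linarith
  have h6 := le_of_mul_le_mul_left h5 hε
  nlinarith

lemma exists_idn {n : ℕ} {ε a₁ a₂ : ℝ} (hε : 0 < ε) (hε1 : ε ≤ 1 / 100000) (h12 : a₁ ≤ a₂)
    (hn : (n:ℝ) + 1 + ε < a₁) (h1 : Iz (n + 1) a₁ ≤ -(1 / 1000)) (h2 : 1 / 1000 ≤ Iz (n + 1) a₂) :
    ∃ a, 0 < a ∧ a ≤ a₂ ∧ Idn (n + 1) ε a := by
  have hpi := Real.pi_pos
  have f1 := (abs_le.1 (dl_first (n + 1) (a := a₁) hε)).1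
  have f2 := (abs_le.1 (dl_first (n + 1) (a := a₂) hε)).2
  have s1 : 0 ≤ dl ((n + 1 : ℤ) : ℝ) a₁ ε Real.pi := by nlinarith
  have s2 : dl ((n + 1 : ℤ) : ℝ) a₂ ε Real.pi ≤ 0 := by nlinarith
  have hc : Continuous fun a => dl ((n + 1 : ℤ) : ℝ) a ε Real.pi := by
    have := fl_cont_a ((n + 1 : ℤ) : ℝ) ε (Real.pi / 2) (t := Real.pi) ⟨hpi.le, by linarith⟩
    unfold dl
    fun_prop
  obtain ⟨a, ha, hz⟩ := intermediate_value_Icc' h12 hc.continuousOn
    (show (0:ℝ) ∈ Icc (dl ((n + 1 : ℤ) : ℝ) a₂ ε Real.pi) (dl ((n + 1 : ℤ) : ℝ) a₁ ε Real.pi)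
      from ⟨s2, s1⟩)
  have hn0 : (0:ℝ) ≤ n := n.cast_nonneg
  refine ⟨a, by linarith [ha.1], ha.2, ?_⟩
  have h3 := half_crit (r := (n + 1 : ℤ)) hz
  have hM := MM_le n (δ := ε / 2) (by positivity)
  intro x
  have h4 := idn_of_sym_pos (n := n) hε (a := a) (by linarith [ha.1]) (by
    push_cast at h3 ⊢
    exact h3) x
  push_cast at h4 ⊢
  exact h4

end V203PG
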